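import Pool.Agent.H45.RM.Lll

/-!
# Gro: `R(3,k) > m^(2t)` for `m^(t+1) ≤ k`, `m` large

`good_of_lll` with `n = m^(2t)`, `M = 4 m^t`, `x = 2 / M³`, `y = 1 / (4 C(n,k))` (for `k ≤ n`; for
`k > n` the empty graph).  `(1 - y)^C(n,k) ≥ 3/4` and `(1 - x)^(3n) ≥ 1 - 3 n x ≥ 3/4` (Bernoulli,
`one_add_mul_le_pow`).  Second inequality: `(1 - x)^n ≥ 1 - n x = 1 - a` with `a = 1/(32 m^t)`,
`1/M = 8 a`, `1 - 8a ≤ (1 - a)(1 - 7a)`, so with `c = k.choose 2` it suffices that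
`(1 - 7a)^c ≤ 3 y / 4 = 3/(16 C(n,k))`; `(1 - 7a)^c ≤ exp(-7 a c)`,
`C(n,k) ≤ n^k = exp(2 t k log m)`, `7 a c = 7 k (k - 1) / (64 m^t) ≥ k (m - 1) / 10`.
`growth`: choose `t` with `2 t / (t + 1) > 2 - ε`, i.e. `t + 1 > 2 / ε`; `m^(t+1) ≤ k < (m+1)^(t+1)`,
`R k - 1 ≥ m^(2t)`.
-/

set_option autoImplicit false

namespace Pool.Agent.H45.RM

open Pool.Agent.H41.RamseyStep

/-- `(1 - y)^C ≥ 3/4` for `y = 1/(4 C)`. -/
private theorem one_sub_pow_ge (C : ℕ) (hC : 0 < C) :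
    (3 / 4 : ℝ) ≤ (1 - 1 / (4 * (C : ℝ))) ^ C := by
  have hC' : (1 : ℝ) ≤ C := by exact_mod_cast hC
  have h1 : 1 / (4 * (C : ℝ)) ≤ 1 := by
    rw [div_le_one (by positivity)]
    linarith
  have h := one_add_mul_le_pow (a := -(1 / (4 * (C : ℝ)))) (by linarith) C
  have h2 : (C : ℝ) * (1 / (4 * (C : ℝ))) = 1 / 4 := by
    field_simp
  calc (3 / 4 : ℝ) = 1 + (C : ℝ) * -(1 / (4 * (C : ℝ))) := by
        rw [mul_neg, h2]
        norm_num
    _ ≤ (1 + -(1 / (4 * (C : ℝ)))) ^ C := h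
    _ = (1 - 1 / (4 * (C : ℝ))) ^ C := by ring_nf

/-- The estimate for the independent sets. -/
private theorem key_exp (t m : ℕ) (hm : 27 ≤ m)
    (hlog : 2 + 2 * (t : ℝ) * Real.log m ≤ 7 * ((m : ℝ) - 1) / 64)
    (hpos : 0 < (m ^ (2 * t)).choose (m ^ (t + 1))) :
    (1 - 7 * (1 / (32 * (m : ℝ) ^ t))) ^ ((m ^ (t + 1)).choose 2) ≤
      3 / (16 * (((m ^ (2 * t)).choose (m ^ (t + 1)) : ℕ) : ℝ)) := by
  have hm1 : (27 : ℝ) ≤ m := by exact_mod_cast hm
  have hm0 : (0 : ℝ) < m := by linarith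
  set P : ℝ := (m : ℝ) ^ t with hP
  have hP1 : 1 ≤ P := one_le_pow₀ (by linarith)
  have hP0 : 0 < P := by linarith
  set k : ℕ := m ^ (t + 1) with hk
  have hkR : (k : ℝ) = P * m := by
    rw [hk, hP]
    push_cast
    ring
  have hk1 : (1 : ℝ) ≤ k := by
    rw [hkR]
    nlinarith
  have hc : ((k.choose 2 : ℕ) : ℝ) = k * (k - 1) / 2 := Nat.cast_choose_two ℝ k
  have hC : (((m ^ (2 * t)).choose k : ℕ) : ℝ) ≤ Real.exp (k * (2 * t * Real.log m)) := by
    have h1 : ((m ^ (2 * t)).choose k : ℕ) ≤ (m ^ (2 * t)) ^ k := Nat.choose_le_pow _ _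
    calc (((m ^ (2 * t)).choose k : ℕ) : ℝ) ≤ (((m ^ (2 * t)) ^ k : ℕ) : ℝ) := by exact_mod_cast h1
      _ = Real.exp (k * (2 * t * Real.log m)) := by
        push_cast
        rw [show (k : ℝ) * (2 * t * Real.log m) = ((k : ℕ) : ℝ) * (((2 * t : ℕ) : ℝ) * Real.log m) by
          push_cast; ring]
        rw [Real.exp_nat_mul, Real.exp_nat_mul, Real.exp_log hm0]
  have hC0 : (0 : ℝ) < (((m ^ (2 * t)).choose k : ℕ) : ℝ) := by exact_mod_cast hpos
  have ha : 7 * (1 / (32 * P)) ≤ 1 := by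
    rw [mul_one_div, div_le_one (by positivity)]
    linarith
  have h1 : (1 - 7 * (1 / (32 * P))) ^ (k.choose 2) ≤
      Real.exp (-(((k.choose 2 : ℕ) : ℝ) * (7 * (1 / (32 * P))))) := by
    rw [← mul_neg, Real.exp_nat_mul]
    exact pow_le_pow_left₀ (by linarith) (Real.one_sub_le_exp_neg _) _
  have h2 : ((k.choose 2 : ℕ) : ℝ) * (7 * (1 / (32 * P))) ≥ k * (7 * ((m : ℝ) - 1) / 64) := by
    rw [hc]
    have h3 : (k : ℝ) - 1 ≥ P * ((m : ℝ) - 1) := by
      rw [hkR]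
      nlinarith
    have h4 : (k : ℝ) * (k - 1) / 2 * (7 * (1 / (32 * P))) = k * (7 / 64) * ((k - 1) / P) := by
      field_simp
      ring
    have h5 : ((k : ℝ) - 1) / P ≥ (m : ℝ) - 1 := by
      rw [ge_iff_le, le_div_iff₀ hP0]
      linarith
    rw [h4]
    have h6 : (k : ℝ) * (7 / 64) * ((k - 1) / P) ≥ k * (7 / 64) * ((m : ℝ) - 1) :=
      mul_le_mul_of_nonneg_left h5 (by positivity)
    linarith
  have h3 : (k : ℝ) * (2 + 2 * (t : ℝ) * Real.log m) ≤ k * (7 * ((m : ℝ) - 1) / 64) :=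
    mul_le_mul_of_nonneg_left hlog (by linarith)
  have he2 : Real.exp (-2) ≤ 3 / 16 := by
    have h4 : (2.7182818283 : ℝ) < Real.exp 1 := Real.exp_one_gt_d9
    have h5 : Real.exp 2 = Real.exp 1 * Real.exp 1 := by
      rw [← Real.exp_add]
      norm_num
    rw [Real.exp_neg, h5]
    rw [inv_le_comm₀ (by positivity) (by norm_num)]
    norm_num
    nlinarith
  rw [le_div_iff₀ (by positivity)]
  calc (1 - 7 * (1 / (32 * P))) ^ (k.choose 2) * (16 * (((m ^ (2 * t)).choose k : ℕ) : ℝ))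
      ≤ Real.exp (-(((k.choose 2 : ℕ) : ℝ) * (7 * (1 / (32 * P))))) *
        (16 * Real.exp (k * (2 * t * Real.log m))) := by
        apply mul_le_mul h1 _ (by positivity) (Real.exp_pos _).le
        linarith
    _ = 16 * Real.exp (-(((k.choose 2 : ℕ) : ℝ) * (7 * (1 / (32 * P)))) +
        k * (2 * t * Real.log m)) := by
        rw [Real.exp_add]
        ring
    _ ≤ 16 * Real.exp (-2) := by
        apply mul_le_mul_of_nonneg_left _ (by norm_num)
        apply Real.exp_le_exp.2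
        linarith
    _ ≤ 3 := by linarith

/-- The graph for `k = m^(t+1)`. -/
private theorem exists_graph (t m : ℕ) (ht : 1 ≤ t) (hm : 27 ≤ m)
    (hlog : 2 + 2 * (t : ℝ) * Real.log m ≤ 7 * ((m : ℝ) - 1) / 64) :
    ∃ G : SimpleGraph (Fin (m ^ (2 * t))), Good G (m ^ (t + 1)) := by
  have hm1 : (27 : ℝ) ≤ m := by exact_mod_cast hm
  have hpos : 0 < (m ^ (2 * t)).choose (m ^ (t + 1)) :=
    Nat.choose_pos (Nat.pow_le_pow_right (by omega) (by omega))
  have hkey := key_exp t m hm hlog hpos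
  have hMnat : 1 < 4 * m ^ t := by
    have : 1 ≤ m ^ t := Nat.one_le_pow _ _ (by omega)
    omega
  set C : ℕ := (m ^ (2 * t)).choose (m ^ (t + 1)) with hCdef
  have hC1 : (1 : ℝ) ≤ C := by exact_mod_cast hpos
  have hy := one_sub_pow_ge C hpos
  set P : ℝ := (m : ℝ) ^ t with hP
  have hP1 : 1 ≤ P := one_le_pow₀ (by linarith)
  have hP0 : 0 < P := by linarith
  have hP27 : 27 ≤ P := by
    calc (27 : ℝ) ≤ m := hm1
      _ = (m : ℝ) ^ 1 := (pow_one _).symm
      _ ≤ P := pow_le_pow_right₀ (by linarith) ht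
  have hMR : ((4 * m ^ t : ℕ) : ℝ) = 4 * P := by
    rw [hP]
    push_cast
    ring
  have hnR : ((m ^ (2 * t) : ℕ) : ℝ) = P ^ 2 := by
    rw [hP]
    push_cast
    rw [← pow_mul, mul_comm]
  set x : ℝ := 2 / (4 * P) ^ 3 with hx
  have hx0 : 0 ≤ x := by positivity
  have hnx : (m ^ (2 * t) : ℕ) * x = 1 / (32 * P) := by
    rw [hnR, hx]
    field_simp
    ring
  have hx1 : x ≤ 1 / (32 * P) := by
    rw [← hnx, hnR]
    exact le_mul_of_one_le_left hx0 (one_le_pow₀ hP1)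
  have ha1 : 1 / (32 * P) ≤ 1 / 32 := by
    apply one_div_le_one_div_of_le (by norm_num)
    linarith
  refine good_of_lll (m ^ (2 * t)) (m ^ (t + 1)) (4 * m ^ t) hMnat x (1 / (4 * (C : ℝ))) hx0
    (by linarith) (by positivity) ?_ ?_ ?_
  · rw [div_lt_one (by positivity)]
    linarith
  · rw [hMR]
    have h := one_add_mul_le_pow (a := -x) (by linarith) (3 * m ^ (2 * t))
    have h3 : (3 / 4 : ℝ) ≤ (1 - x) ^ (3 * m ^ (2 * t)) := by
      have h4 : 1 + ((3 * m ^ (2 * t) : ℕ) : ℝ) * -x ≤ (1 - x) ^ (3 * m ^ (2 * t)) := by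
        rw [sub_eq_add_neg]
        exact h
      have h5 : ((3 * m ^ (2 * t) : ℕ) : ℝ) * -x = - (3 * ((m ^ (2 * t) : ℕ) * x)) := by
        push_cast
        ring
      rw [h5, hnx] at h4
      linarith
    calc (1 / (4 * P)) ^ 3 = x * (1 / 2) := by
          rw [hx]
          field_simp
      _ ≤ x * ((3 / 4) * (3 / 4)) := by
          apply mul_le_mul_of_nonneg_left _ hx0
          norm_num
      _ ≤ x * ((1 - x) ^ (3 * m ^ (2 * t)) * (1 - 1 / (4 * (C : ℝ))) ^ C) := by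
          apply mul_le_mul_of_nonneg_left _ hx0
          exact mul_le_mul h3 hy (by norm_num) (by linarith)
  · rw [hMR]
    set c : ℕ := (m ^ (t + 1)).choose 2 with hc
    have h := one_add_mul_le_pow (a := -x) (by linarith) (m ^ (2 * t))
    have h1 : 1 - 1 / (32 * P) ≤ (1 - x) ^ (m ^ (2 * t)) := by
      have h4 : 1 + ((m ^ (2 * t) : ℕ) : ℝ) * -x ≤ (1 - x) ^ (m ^ (2 * t)) := by
        rw [sub_eq_add_neg]
        exact h
      rw [mul_neg, hnx] at h4
      linarith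
    have h2 : (1 - 1 / (32 * P)) ^ c ≤ (1 - x) ^ (c * m ^ (2 * t)) := by
      rw [mul_comm c, pow_mul]
      exact pow_le_pow_left₀ (by linarith) h1 _
    have h8 : 1 / (4 * P) = 8 * (1 / (32 * P)) := by
      field_simp
      norm_num
    set a : ℝ := 1 / (32 * P) with ha
    have ha0 : 0 ≤ a := by positivity
    calc (1 - 1 / (4 * P)) ^ c ≤ ((1 - a) * (1 - 7 * a)) ^ c := by
          apply pow_le_pow_left₀
          · rw [h8]
            linarith
          · rw [h8]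
            nlinarith
      _ = (1 - a) ^ c * (1 - 7 * a) ^ c := mul_pow _ _ _
      _ ≤ (1 - x) ^ (c * m ^ (2 * t)) * (3 / (16 * (C : ℝ))) := by
          apply mul_le_mul h2 hkey
          · apply pow_nonneg
            linarith
          · apply pow_nonneg
            linarith
      _ = 1 / (4 * (C : ℝ)) * ((1 - x) ^ (c * m ^ (2 * t)) * (3 / 4)) := by
          field_simp
          norm_num
      _ ≤ 1 / (4 * (C : ℝ)) * ((1 - x) ^ (c * m ^ (2 * t)) * (1 - 1 / (4 * (C : ℝ))) ^ C) := by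
          apply mul_le_mul_of_nonneg_left _ (by positivity)
          apply mul_le_mul_of_nonneg_left hy
          apply pow_nonneg
          linarith

theorem R_gt (t : ℕ) (ht : 1 ≤ t) :
    ∃ m₀ : ℕ, ∀ m k : ℕ, m₀ ≤ m → m ^ (t + 1) ≤ k → m ^ (2 * t) < R k := by
  have ht' : (1 : ℝ) ≤ t := by exact_mod_cast ht
  have hlog := Real.isLittleO_log_id_atTop.def (show (0 : ℝ) < 1 / (64 * t) by positivity)
  obtain ⟨B, hB⟩ := Filter.eventually_atTop.1 hlog
  refine ⟨max 27 ⌈B⌉₊, fun m k hm hk => ?_⟩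
  have hm27 : 27 ≤ m := (le_max_left _ _).trans hm
  have hmR : (27 : ℝ) ≤ m := by exact_mod_cast hm27
  have hmB : B ≤ (m : ℝ) := (Nat.le_ceil B).trans (by exact_mod_cast (le_max_right _ _).trans hm)
  have h1 := hB m hmB
  simp only [id, Real.norm_eq_abs] at h1
  rw [abs_of_nonneg (Real.log_nonneg (by linarith)), abs_of_nonneg (by linarith : (0 : ℝ) ≤ m)] at h1
  have h2 : (t : ℝ) * Real.log m ≤ m / 64 := by
    calc (t : ℝ) * Real.log m ≤ t * (1 / (64 * t) * m) :=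
          mul_le_mul_of_nonneg_left h1 (by linarith)
      _ = m / 64 := by
          field_simp
  obtain ⟨G, hG⟩ := exists_graph t m ht hm27 (by linarith)
  refine lt_of_lt_of_le ?_ (R_mono hk)
  simpa using hG.card_lt

end Pool.Agent.H45.RM
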