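import Pool.Agent.H45.RM.Gro

/-!
# Gr2: `R(3,k) > k^(2-ε)` for large `k`, and the two inequalities used by `find`

`growth`: choose `t` with `t + 1 > 2 / ε`; for `k ≥ 1` let `m` be maximal with `m^(t+1) ≤ k`
(`k < (m+1)^(t+1)`, `m → ∞`); `R k - 1 ≥ m^(2t)` (`R_gt`) and `m^(2t) ≥ ((m+1)/2)^(2t) ≥
k^(2t/(t+1)) / 4^t ≥ k^(2-ε)` for large `k` as `2t/(t+1) > 2 - ε`.
`growth_find`: `8 (2r+1)² (4s+1) ≤ 360 r² s ≤ 360 k^(1-ε)`, and `360 k^(1-ε) k³ ≤ (k^(2-ε/4))²`,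
`360 k^(1-ε) k ≤ k^(2-ε/4)` for large `k`.
-/

set_option autoImplicit false

namespace Pool.Agent.H45.RM

open Pool.Agent.H41.RamseyStep

private theorem ev_rpow (a : ℝ) (ha : 0 < a) (C : ℝ) :
    ∃ k₀ : ℕ, ∀ k : ℕ, k₀ ≤ k → C ≤ (k : ℝ) ^ a := by
  have h := (tendsto_rpow_atTop ha).comp (tendsto_natCast_atTop_atTop (R := ℝ))
  exact Filter.eventually_atTop.1 (h.eventually (Filter.eventually_ge_atTop C))

theorem growth (ε : ℝ) (hε : 0 < ε) : ∃ k₀ : ℕ, ∀ k : ℕ, k₀ ≤ k →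
    (k : ℝ) ^ (2 - ε) ≤ ((R k - 1 : ℕ) : ℝ) := by
  obtain ⟨t, ht⟩ := exists_nat_gt (4 / ε)
  have ht0 : (0 : ℝ) < t := lt_trans (by positivity) ht
  have ht1 : 1 ≤ t := by
    have : 0 < t := by exact_mod_cast ht0
    exact this
  obtain ⟨m₀, hm₀⟩ := R_gt t ht1
  obtain ⟨a, ha⟩ : ∃ a : ℝ, a = 1 / ((t : ℝ) + 1) := ⟨_, rfl⟩
  have ha0 : 0 < a := by rw [ha]; positivity
  have haε : a < ε / 4 := by
    rw [ha, div_lt_div_iff₀ (by positivity) (by norm_num)]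
    have := (div_lt_iff₀ hε).1 ht
    nlinarith
  have hat : a * (2 * t) = 2 - 2 * a := by
    rw [ha]; field_simp; ring
  have hδ : 0 < a * (2 * t) - (2 - ε) := by
    rw [hat]; linarith
  obtain ⟨k₁, hk₁⟩ := ev_rpow a ha0 (max 2 (m₀ + 1))
  obtain ⟨k₂, hk₂⟩ := ev_rpow _ hδ (4 ^ t)
  refine ⟨max 1 (max k₁ k₂), fun k hk => ?_⟩
  have hk1' : 1 ≤ k := le_trans (le_max_left _ _) hk
  have hk1 : (0 : ℝ) < k := by exact_mod_cast hk1'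
  have h1 := hk₁ k (le_trans (le_trans (le_max_left _ _) (le_max_right _ _)) hk)
  have h2 := hk₂ k (le_trans (le_trans (le_max_right _ _) (le_max_right _ _)) hk)
  obtain ⟨z, hz⟩ : ∃ z : ℝ, z = (k : ℝ) ^ a := ⟨_, rfl⟩
  rw [← hz] at h1
  have hz2 : (2 : ℝ) ≤ z := le_trans (le_max_left _ _) h1
  have hzm : (m₀ : ℝ) + 1 ≤ z := le_trans (le_max_right _ _) h1
  have hz0 : (0 : ℝ) ≤ z := by linarith
  obtain ⟨m, hm⟩ : ∃ m : ℕ, m = ⌊z⌋₊ := ⟨_, rfl⟩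
  have hmz : (m : ℝ) ≤ z := by rw [hm]; exact Nat.floor_le hz0
  have hzm1 : z < m + 1 := by rw [hm]; exact Nat.lt_floor_add_one z
  have hmm : m₀ ≤ m := by
    rw [hm]; exact Nat.le_floor (by linarith)
  have hzp : z ^ (t + 1) = k := by
    rw [hz, ← Real.rpow_natCast, ← Real.rpow_mul hk1.le, ha]
    have : 1 / ((t : ℝ) + 1) * ((t + 1 : ℕ) : ℝ) = 1 := by
      push_cast; field_simp
    rw [this, Real.rpow_one]
  have hpow : m ^ (t + 1) ≤ k := by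
    have h3 : (m : ℝ) ^ (t + 1) ≤ z ^ (t + 1) := pow_le_pow_left₀ (Nat.cast_nonneg m) hmz _
    rw [hzp] at h3
    exact_mod_cast h3
  have hR := hm₀ m k hmm hpow
  have hR' : m ^ (2 * t) ≤ R k - 1 := by omega
  have hR2 : ((m : ℝ)) ^ (2 * t) ≤ ((R k - 1 : ℕ) : ℝ) := by exact_mod_cast hR'
  refine le_trans ?_ hR2
  have hzm2 : z / 2 ≤ m := by linarith
  have h5 : (z / 2) ^ (2 * t) ≤ (m : ℝ) ^ (2 * t) := pow_le_pow_left₀ (by linarith) hzm2 _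
  refine le_trans ?_ h5
  have h6 : z ^ (2 * t) = (k : ℝ) ^ (a * (2 * t)) := by
    rw [hz, ← Real.rpow_natCast, ← Real.rpow_mul hk1.le]
    push_cast; rfl
  have h7 : (k : ℝ) ^ (a * (2 * t)) = (k : ℝ) ^ (a * (2 * t) - (2 - ε)) * (k : ℝ) ^ (2 - ε) := by
    rw [← Real.rpow_add hk1]; congr 1; ring
  have h8 : (2 : ℝ) ^ (2 * t) = 4 ^ t := by
    rw [pow_mul]; norm_num
  rw [div_pow, h6, h7, h8, le_div_iff₀ (by positivity), mul_comm]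
  exact mul_le_mul_of_nonneg_right h2 (Real.rpow_nonneg hk1.le _)

private theorem key (ε : ℝ) (hε : 0 < ε) (D : ℝ) : ∃ k₀ : ℕ, ∀ k : ℕ, k₀ ≤ k → ∀ C : ℕ,
    (C : ℝ) ≤ D * (k : ℝ) ^ (1 - ε) → C * k ≤ R k - 1 ∧ C * k ^ 3 ≤ (R k - 1) ^ 2 := by
  obtain ⟨k₁, hk₁⟩ := growth (ε / 4) (by linarith)
  obtain ⟨k₂, hk₂⟩ := ev_rpow (ε / 2) (by linarith) D
  refine ⟨max 1 (max k₁ k₂), fun k hk C hC => ?_⟩
  have hk1' : 1 ≤ k := le_trans (le_max_left _ _) hk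
  have hk1 : (0 : ℝ) < k := by exact_mod_cast hk1'
  have hk1r : (1 : ℝ) ≤ k := by exact_mod_cast hk1'
  have h1 := hk₁ k (le_trans (le_trans (le_max_left _ _) (le_max_right _ _)) hk)
  have h2 := hk₂ k (le_trans (le_trans (le_max_right _ _) (le_max_right _ _)) hk)
  have hC2 : (C : ℝ) ≤ (k : ℝ) ^ (1 - ε / 2) := by
    have h3 : (k : ℝ) ^ (1 - ε / 2) = (k : ℝ) ^ (ε / 2) * (k : ℝ) ^ (1 - ε) := by
      rw [← Real.rpow_add hk1]; congr 1; ring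
    rw [h3]
    exact le_trans hC (mul_le_mul_of_nonneg_right h2 (Real.rpow_nonneg hk1.le _))
  constructor
  · have h4 : (C : ℝ) * k ≤ (k : ℝ) ^ (2 - ε / 2) := by
      have h5 : (k : ℝ) ^ (2 - ε / 2) = (k : ℝ) ^ (1 - ε / 2) * k := by
        have : (k : ℝ) ^ (1 - ε / 2) * k = (k : ℝ) ^ (1 - ε / 2) * (k : ℝ) ^ (1 : ℝ) := by
          rw [Real.rpow_one]
        rw [this, ← Real.rpow_add hk1]; congr 1; ring
      rw [h5]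
      exact mul_le_mul_of_nonneg_right hC2 hk1.le
    have h6 : (k : ℝ) ^ (2 - ε / 2) ≤ (k : ℝ) ^ (2 - ε / 4) :=
      Real.rpow_le_rpow_of_exponent_le hk1r (by linarith)
    have h7 : ((C * k : ℕ) : ℝ) ≤ ((R k - 1 : ℕ) : ℝ) := by
      push_cast [-Nat.cast_sub, -Nat.cast_pred]
      exact le_trans h4 (le_trans h6 h1)
    exact_mod_cast h7
  · have h4 : (C : ℝ) * (k : ℝ) ^ 3 ≤ ((k : ℝ) ^ (2 - ε / 4)) ^ 2 := by
      have h5 : ((k : ℝ) ^ (2 - ε / 4)) ^ 2 = (k : ℝ) ^ (1 - ε / 2) * (k : ℝ) ^ 3 := by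
        have h51 : (k : ℝ) ^ 3 = (k : ℝ) ^ (3 : ℝ) := by
          rw [← Real.rpow_natCast]; norm_num
        have h52 : ((k : ℝ) ^ (2 - ε / 4)) ^ 2 = (k : ℝ) ^ (2 - ε / 4) * (k : ℝ) ^ (2 - ε / 4) :=
          sq _
        rw [h51, h52, ← Real.rpow_add hk1, ← Real.rpow_add hk1]; congr 1; ring
      rw [h5]
      exact mul_le_mul_of_nonneg_right hC2 (by positivity)
    have h7 : ((C * k ^ 3 : ℕ) : ℝ) ≤ (((R k - 1) ^ 2 : ℕ) : ℝ) := by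
      have h8 : ((k : ℝ) ^ (2 - ε / 4)) ^ 2 ≤ ((R k - 1 : ℕ) : ℝ) ^ 2 :=
        pow_le_pow_left₀ (Real.rpow_nonneg hk1.le _) h1 _
      have h9 : (((R k - 1) ^ 2 : ℕ) : ℝ) = ((R k - 1 : ℕ) : ℝ) ^ 2 := Nat.cast_pow _ _
      have h10 : ((C * k ^ 3 : ℕ) : ℝ) = (C : ℝ) * (k : ℝ) ^ 3 := by
        rw [Nat.cast_mul, Nat.cast_pow]
      rw [h9, h10]
      exact le_trans h4 h8
    exact_mod_cast h7

theorem growth_find (ε : ℝ) (hε : 0 < ε) : ∃ k₀ : ℕ, ∀ k : ℕ, k₀ ≤ k → ∀ r s : ℕ, 1 ≤ r → 1 ≤ s →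
    (r : ℝ) ^ 2 * s ≤ (k : ℝ) ^ (1 - ε) →
    8 * (2 * r + 1) ^ 2 * (4 * s + 1) * k ≤ R k - 1 ∧
      8 * (2 * r + 1) ^ 2 * (4 * s + 1) * k ^ 3 ≤ (R k - 1) ^ 2 := by
  obtain ⟨k₀, hk₀⟩ := key ε hε 360
  refine ⟨k₀, fun k hk r s hr hs hrs => hk₀ k hk _ ?_⟩
  have h1 : 8 * (2 * r + 1) ^ 2 * (4 * s + 1) ≤ 360 * (r ^ 2 * s) := by
    have h2 : 2 * r + 1 ≤ 3 * r := by omega
    have h3 : 4 * s + 1 ≤ 5 * s := by omega
    calc 8 * (2 * r + 1) ^ 2 * (4 * s + 1) ≤ 8 * (3 * r) ^ 2 * (5 * s) :=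
          Nat.mul_le_mul (Nat.mul_le_mul le_rfl (Nat.pow_le_pow_left h2 2)) h3
      _ = 360 * (r ^ 2 * s) := by ring
  have h4 : ((8 * (2 * r + 1) ^ 2 * (4 * s + 1) : ℕ) : ℝ) ≤ ((360 * (r ^ 2 * s) : ℕ) : ℝ) := by
    exact_mod_cast h1
  refine le_trans h4 ?_
  push_cast
  exact mul_le_mul_of_nonneg_left hrs (by norm_num)

/-- The same for fixed `r`, `s`. -/
theorem growth_fix (r s : ℕ) : ∃ k₀ : ℕ, ∀ k : ℕ, k₀ ≤ k →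
    8 * (2 * r + 1) ^ 2 * (4 * s + 1) * k ≤ R k - 1 ∧
      8 * (2 * r + 1) ^ 2 * (4 * s + 1) * k ^ 3 ≤ (R k - 1) ^ 2 := by
  obtain ⟨k₀, hk₀⟩ := key 1 one_pos ((8 * (2 * r + 1) ^ 2 * (4 * s + 1) : ℕ) : ℝ)
  refine ⟨k₀, fun k hk => hk₀ k hk _ ?_⟩
  rw [sub_self, Real.rpow_zero, mul_one]

end Pool.Agent.H45.RM
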