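import Pool.Agent.H45.RM.Defs

/-!
# Att: attaching a graph, and attaching a graph with doubled vertices

`good_att` is `good_ext` of `H41/RamseyStep` for an arbitrary triangle-free graph `H`.
`good_double`: `X = Y ⊕ M`, `H.comap π`, `π : X → Y` the projection, `A (inl i) = A₁ i` for
`i ∈ M` (`∅` otherwise), `A (inr i) = A₂ i`.  For `S` independent in `X`: `T` = the `i ∈ M` with both
copies in `S`; `π S` is independent in `H`, so `|π S| ≤ j`; `|S| = |π S| + |T|`.
-/

set_option autoImplicit false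

namespace Pool.Agent.H45.RM

open Pool.Agent.H41.RamseyStep

/-- Attach `H` to `G`; the vertex `i` of `H` is joined to `A i`. -/
def att {V X : Type*} (G : SimpleGraph V) (H : SimpleGraph X) (A : X → Set V) :
    SimpleGraph (V ⊕ X) where
  Adj x y := match x, y with
    | .inl u, .inl v => G.Adj u v
    | .inl u, .inr i => u ∈ A i
    | .inr i, .inl u => u ∈ A i
    | .inr i, .inr j => H.Adj i j
  symm := ⟨by
    rintro (u | i) (v | j) h
    · exact (show G.Adj u v from h).symm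
    · exact h
    · exact h
    · exact (show H.Adj i j from h).symm⟩
  loopless := ⟨by
    rintro (u | i) h
    · exact G.loopless.irrefl u h
    · exact H.loopless.irrefl i h⟩

theorem good_att {V X : Type*} {G : SimpleGraph V} {H : SimpleGraph X} {A : X → Set V} {K : ℕ}
    (hG : ∀ a b c, G.Adj a b → G.Adj b c → G.Adj a c → False)
    (hH : ∀ a b c, H.Adj a b → H.Adj b c → H.Adj a c → False)
    (hA : ∀ i, ∀ u ∈ A i, ∀ v ∈ A i, ¬ G.Adj u v)
    (hd : ∀ i l, H.Adj i l → ∀ u ∈ A i, u ∉ A l)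
    (hI : ∀ (I : Finset V) (S : Finset X), (∀ x ∈ I, ∀ y ∈ I, ¬ G.Adj x y) →
      (∀ x ∈ S, ∀ y ∈ S, ¬ H.Adj x y) → (∀ i ∈ S, ∀ u ∈ I, u ∉ A i) → I.card + S.card < K) :
    Good (att G H A) K := by
  classical
  constructor
  · rintro (a | a) (b | b) (c | c) hab hbc hac
    · exact hG a b c hab hbc hac
    · exact hA c a hac b hbc hab
    · exact hA b a hab c hbc hac
    · exact hd b c hbc a hab hac
    · exact hA a b hab c hac hbc
    · exact hd a c hac b hab hbc
    · exact hd a b hab c hac hbc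
    · exact hH a b c hab hbc hac
  · intro s hs
    have hcard : s.toLeft.card + s.toRight.card = s.card := Finset.card_toLeft_add_card_toRight
    rw [← hcard]
    refine hI _ _ ?_ ?_ ?_
    · intro x hx y hy
      exact hs _ (Finset.mem_toLeft.1 hx) _ (Finset.mem_toLeft.1 hy)
    · intro x hx y hy
      exact hs _ (Finset.mem_toRight.1 hx) _ (Finset.mem_toRight.1 hy)
    · intro i hi x hx
      exact hs _ (Finset.mem_toLeft.1 hx) _ (Finset.mem_toRight.1 hi)

theorem good_double {V Y : Type*} [Fintype V] [Fintype Y] {G : SimpleGraph V}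
    {H : SimpleGraph Y} {k j : ℕ} (hG : Good G k) (hH : Good H (j + 1)) (M : Finset Y)
    (A₁ A₂ : Y → Set V)
    (h1 : ∀ i ∈ M, ∀ u ∈ A₁ i, ∀ v ∈ A₁ i, ¬ G.Adj u v)
    (h2 : ∀ i ∈ M, ∀ u ∈ A₂ i, ∀ v ∈ A₂ i, ¬ G.Adj u v)
    (hd : ∀ i ∈ M, ∀ l ∈ M, H.Adj i l → ∀ u, (u ∈ A₁ i ∨ u ∈ A₂ i) → (u ∈ A₁ l ∨ u ∈ A₂ l) → False)
    (hI : ∀ (I : Finset V) (T : Finset Y), T ⊆ M → (∀ x ∈ I, ∀ y ∈ I, ¬ G.Adj x y) →
      (∀ x ∈ T, ∀ y ∈ T, ¬ H.Adj x y) → (∀ i ∈ T, ∀ u ∈ I, u ∉ A₁ i ∧ u ∉ A₂ i) →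
      I.card + T.card < k) :
    Fintype.card V + Fintype.card Y + M.card < R (k + j) := by
  classical
  let π : Y ⊕ {y // y ∈ M} → Y := Sum.elim id Subtype.val
  let A : Y ⊕ {y // y ∈ M} → Set V :=
    Sum.elim (fun i => {v | i ∈ M ∧ v ∈ A₁ i}) (fun i => A₂ i)
  have hAl : ∀ i u, u ∈ A (Sum.inl i) ↔ i ∈ M ∧ u ∈ A₁ i := fun i u => Iff.rfl
  have hAr : ∀ i u, u ∈ A (Sum.inr i) ↔ u ∈ A₂ i := fun i u => Iff.rfl
  have key : ∀ x u, u ∈ A x → π x ∈ M ∧ (u ∈ A₁ (π x) ∨ u ∈ A₂ (π x)) := by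
    rintro (i | i) u hu
    · exact ⟨hu.1, Or.inl hu.2⟩
    · exact ⟨i.2, Or.inr hu⟩
  have hgood : Good (att G (H.comap π) A) (k + j) := by
    refine good_att hG.1 (fun a b c h1 h2 h3 => hH.1 _ _ _ h1 h2 h3) ?_ ?_ ?_
    · rintro (i | i) u hu v hv
      · exact h1 i hu.1 u hu.2 v hv.2
      · exact h2 i i.2 u hu v hv
    · intro x y hxy u hu hu'
      obtain ⟨k1, k2⟩ := key x u hu
      obtain ⟨k3, k4⟩ := key y u hu'
      exact hd _ k1 _ k3 hxy u k2 k4
    · intro I S hIi hS hIS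
      set L : Finset Y := S.toLeft with hL
      set R' : Finset Y := S.toRight.image Subtype.val with hR'
      have hR'c : R'.card = S.toRight.card :=
        Finset.card_image_of_injective _ Subtype.val_injective
      have hcard : S.toLeft.card + S.toRight.card = S.card := Finset.card_toLeft_add_card_toRight
      have hun : (L ∪ R').card + (L ∩ R').card = L.card + R'.card := Finset.card_union_add_card_inter _ _
      have hun' : (L ∪ R').card + (L ∩ R').card = S.card := by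
        rw [hun, hR'c]
        exact hcard
      have hmem : ∀ y ∈ L ∪ R', ∃ x ∈ S, π x = y := by
        intro y hy
        rcases Finset.mem_union.1 hy with hy | hy
        · exact ⟨Sum.inl y, Finset.mem_toLeft.1 hy, rfl⟩
        · obtain ⟨z, hz, rfl⟩ := Finset.mem_image.1 hy
          exact ⟨Sum.inr z, Finset.mem_toRight.1 hz, rfl⟩
      have hind : ∀ x ∈ L ∪ R', ∀ y ∈ L ∪ R', ¬ H.Adj x y := by
        intro x hx y hy hxy
        obtain ⟨x', hx', rfl⟩ := hmem x hx
        obtain ⟨y', hy', rfl⟩ := hmem y hy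
        exact hS x' hx' y' hy' hxy
      have hj := hH.2 _ hind
      have hsub : ∀ x ∈ L ∩ R', x ∈ L ∪ R' := fun x hx =>
        Finset.mem_union_left _ (Finset.mem_inter.1 hx).1
      have hTM : L ∩ R' ⊆ M := by
        intro x hx
        obtain ⟨z, -, rfl⟩ := Finset.mem_image.1 (Finset.mem_inter.1 hx).2
        exact z.2
      have hT := hI I (L ∩ R') hTM hIi
        (fun x hx y hy => hind x (hsub x hx) y (hsub y hy)) (by
          intro i hi u hu
          obtain ⟨hi1, hi2⟩ := Finset.mem_inter.1 hi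
          obtain ⟨z, hz, rfl⟩ := Finset.mem_image.1 hi2
          refine ⟨fun h => hIS _ (Finset.mem_toLeft.1 hi1) u hu ⟨z.2, h⟩,
            fun h => hIS _ (Finset.mem_toRight.1 hz) u hu h⟩)
      omega
  have h3 := hgood.card_lt
  rw [Fintype.card_sum, Fintype.card_sum, Fintype.card_coe] at h3
  omega

end Pool.Agent.H45.RM
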