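import Mathlib

/-!
# Car: Caro-Wei for a conflict relation

`wei`: by strong induction on `L`: `∑_{x ∈ L} 1 / deg_L x ≤ |S|` for some independent `S ⊆ L`
(`deg_L x` = number of `y ∈ L` with `C x y`; take `x` of minimal degree `δ`, remove its
`C`-neighbours in `L`: the removed terms have sum `≤ δ / δ = 1`, the other degrees decrease).
`caro`: `|L|² / Q ≤ ∑ 1 / deg_L x` (Sedrakyan, `Finset.sq_sum_div_le_sum_sq_div`), `Q = ∑ deg_L x`;
so there is an independent set with more than `s` elements; take a subset.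
-/

set_option autoImplicit false

namespace Pool.Agent.H45.RM

private theorem deg_pos {V : Type*} [DecidableEq V] (C : V → V → Prop) [DecidableRel C]
    (hr : ∀ x, C x x) (L : Finset V) {x : V} (hx : x ∈ L) :
    0 < (L.filter fun y => C x y).card :=
  Finset.card_pos.2 ⟨x, Finset.mem_filter.2 ⟨hx, hr x⟩⟩

theorem wei {V : Type*} [DecidableEq V] (C : V → V → Prop) [DecidableRel C]
    (hr : ∀ x, C x x) (hs : ∀ x y, C x y → C y x) (L : Finset V) :
    ∃ S ⊆ L, (∀ x ∈ S, ∀ y ∈ S, C x y → x = y) ∧
      ∑ x ∈ L, 1 / ((L.filter fun y => C x y).card : ℝ) ≤ S.card := by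
  induction L using Finset.strongInduction with
  | H L ih =>
    rcases L.eq_empty_or_nonempty with rfl | hL
    · exact ⟨∅, Finset.Subset.refl _, by simp, by simp⟩
    obtain ⟨x, hx, hmin⟩ := Finset.exists_min_image L
      (fun z => (L.filter fun y => C z y).card) hL
    obtain ⟨N, hN⟩ : ∃ N, N = L.filter fun y => C x y := ⟨_, rfl⟩
    have hNL : N ⊆ L := by rw [hN]; exact Finset.filter_subset _ _
    have hxN : x ∈ N := by rw [hN]; exact Finset.mem_filter.2 ⟨hx, hr x⟩
    have hss : L \ N ⊂ L := by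
      rw [Finset.ssubset_iff_of_subset Finset.sdiff_subset]
      exact ⟨x, hx, fun h => (Finset.mem_sdiff.1 h).2 hxN⟩
    obtain ⟨S, hS, hI, hsum⟩ := ih (L \ N) hss
    have hnot : ∀ y ∈ S, ¬ C x y := by
      intro y hy hc
      have h1 := Finset.mem_sdiff.1 (hS hy)
      exact h1.2 (by rw [hN]; exact Finset.mem_filter.2 ⟨h1.1, hc⟩)
    have hxS : x ∉ S := fun h => hnot x h (hr x)
    refine ⟨insert x S, ?_, ?_, ?_⟩
    · intro y hy
      rcases Finset.mem_insert.1 hy with rfl | hy
      · exact hx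
      · exact (Finset.mem_sdiff.1 (hS hy)).1
    · intro y hy z hz hc
      rcases Finset.mem_insert.1 hy with rfl | hy' <;> rcases Finset.mem_insert.1 hz with rfl | hz'
      · rfl
      · exact absurd hc (hnot z hz')
      · exact absurd (hs _ _ hc) (hnot y hy')
      · exact hI y hy' z hz' hc
    · rw [Finset.card_insert_of_notMem hxS, ← Finset.sum_sdiff hNL]
      push_cast
      have h1 : ∑ y ∈ L \ N, 1 / ((L.filter fun z => C y z).card : ℝ) ≤ (S.card : ℝ) := by
        refine le_trans (Finset.sum_le_sum fun y hy => ?_) hsum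
        have h2 := deg_pos C hr (L \ N) hy
        apply one_div_le_one_div_of_le (by exact_mod_cast h2)
        exact_mod_cast Finset.card_le_card (Finset.filter_subset_filter _ Finset.sdiff_subset)
      have h3 : ∑ y ∈ N, 1 / ((L.filter fun z => C y z).card : ℝ) ≤ 1 := by
        have h4 : (0 : ℝ) < (N.card : ℝ) := by exact_mod_cast Finset.card_pos.2 ⟨x, hxN⟩
        calc ∑ y ∈ N, 1 / ((L.filter fun z => C y z).card : ℝ)
            ≤ ∑ _y ∈ N, 1 / (N.card : ℝ) := by
              apply Finset.sum_le_sum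
              intro y hy
              apply one_div_le_one_div_of_le h4
              have h5 := hmin y (hNL hy)
              rw [← hN] at h5
              exact_mod_cast h5
          _ = 1 := by
              rw [Finset.sum_const, nsmul_eq_mul]
              exact mul_one_div_cancel h4.ne'
      linarith

theorem caro {V : Type*} [DecidableEq V] (C : V → V → Prop) [DecidableRel C]
    (hr : ∀ x, C x x) (hs : ∀ x y, C x y → C y x) (L : Finset V) (s : ℕ)
    (h : s * ((L ×ˢ L).filter fun p => C p.1 p.2).card < L.card ^ 2) :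
    ∃ S ⊆ L, S.card = s ∧ ∀ x ∈ S, ∀ y ∈ S, C x y → x = y := by
  obtain ⟨S, hS, hI, hsum⟩ := wei C hr hs L
  have hQ : ((L ×ˢ L).filter fun p => C p.1 p.2).card =
      ∑ x ∈ L, (L.filter fun y => C x y).card := by
    rw [Finset.card_filter, Finset.sum_product]
    apply Finset.sum_congr rfl
    intro x _
    rw [Finset.card_filter]
  have hLne : L.Nonempty := by
    rw [Finset.nonempty_iff_ne_empty]
    rintro rfl
    simp at h
  have h1 := Finset.sq_sum_div_le_sum_sq_div L (fun _ => (1 : ℝ))
    (g := fun x => ((L.filter fun y => C x y).card : ℝ))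
    (fun x hx => by exact_mod_cast deg_pos C hr L hx)
  simp only [one_pow, Finset.sum_const, nsmul_eq_mul, mul_one] at h1
  have hQR : (∑ x ∈ L, ((L.filter fun y => C x y).card : ℝ)) =
      (((L ×ˢ L).filter fun p => C p.1 p.2).card : ℝ) := by
    rw [hQ]
    push_cast
    rfl
  rw [hQR] at h1
  have hQpos : (0 : ℝ) < (((L ×ˢ L).filter fun p => C p.1 p.2).card : ℝ) := by
    obtain ⟨x, hx⟩ := hLne
    exact_mod_cast Finset.card_pos.2
      ⟨(x, x), Finset.mem_filter.2 ⟨Finset.mem_product.2 ⟨hx, hx⟩, hr x⟩⟩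
  have h2 : (s : ℝ) < (L.card : ℝ) ^ 2 / (((L ×ˢ L).filter fun p => C p.1 p.2).card : ℝ) := by
    rw [lt_div_iff₀ hQpos]
    exact_mod_cast h
  have h3 : s ≤ S.card := by
    have : (s : ℝ) < (S.card : ℝ) := lt_of_lt_of_le h2 (h1.trans hsum)
    exact_mod_cast this.le
  obtain ⟨T, hT, hTc⟩ := Finset.exists_subset_card_eq h3
  exact ⟨T, hT.trans hS, hTc, fun x hx y hy => hI x (hT hx) y (hT hy)⟩

end Pool.Agent.H45.RM
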