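import Pool.Agent.H45.RM.Dic

/-!
# Cnt: the three counts

`pairs_O`: for `o ∈ O` the pairs in `N(o)²` are at most `k²` (`card_nbr`), `|O| ≤ c k`.
`sum_far`: `(x, x)`: `≤ n`; `(x, y)` with `x ~ y`: `≤ n k`; common neighbour in `O`: `pairs_O`; common
neighbour `d ∉ O`: a pair in `(N(d) ∩ Oᶜ)²`.
`sum_bad`: the pairs `(x, x)`: `∑_d |N(d) ∩ Oᶜ| ≤ n k`; a pair `x ≠ y` in `Oᶜ` has at most one common
neighbour `d ∉ O` (`hC4` with `z = ![x, y, d, d']`), so the map `(d, (x, y)) ↦ (x, y)` is injective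
on the pairs `x ≠ y`, with values in the set of `pairs_O`.
-/

set_option autoImplicit false

namespace Pool.Agent.H45.RM

open Pool.Agent.H41.RamseyStep

open Classical in
/-- Pairs with a common neighbour in `O`. -/
theorem pairs_O {V : Type*} [Fintype V] {G : SimpleGraph V} {k c : ℕ} (hG : Good G k)
    (O : Finset V) (hO : O.card ≤ c * k) :
    ((Finset.univ : Finset (V × V)).filter fun p => ∃ o ∈ O, G.Adj p.1 o ∧ G.Adj p.2 o).card ≤
      c * k ^ 3 := by
  have hsub : ((Finset.univ : Finset (V × V)).filter fun p => ∃ o ∈ O, G.Adj p.1 o ∧ G.Adj p.2 o) ⊆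
      O.biUnion fun o => (Finset.univ.filter fun y => G.Adj o y) ×ˢ
        (Finset.univ.filter fun y => G.Adj o y) := by
    intro p hp
    obtain ⟨o, ho, h1, h2⟩ := (Finset.mem_filter.1 hp).2
    exact Finset.mem_biUnion.2 ⟨o, ho, Finset.mem_product.2
      ⟨Finset.mem_filter.2 ⟨Finset.mem_univ _, h1.symm⟩,
        Finset.mem_filter.2 ⟨Finset.mem_univ _, h2.symm⟩⟩⟩
  refine (Finset.card_le_card hsub).trans ?_
  refine (Finset.card_biUnion_le_card_mul _ _ (k ^ 2) ?_).trans ?_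
  · intro o _
    rw [Finset.card_product, sq]
    exact Nat.mul_le_mul (card_nbr hG o).le (card_nbr hG o).le
  · calc O.card * k ^ 2 ≤ c * k * k ^ 2 := Nat.mul_le_mul_right _ hO
      _ = c * k ^ 3 := by ring

open Classical in
/-- The sum of the degrees. -/
private theorem sum_deg {V : Type*} [Fintype V] {G : SimpleGraph V} {k : ℕ} (hG : Good G k)
    (O : Finset V) :
    ∑ d ∈ Oᶜ, (Oᶜ.filter fun x => G.Adj d x).card ≤ Fintype.card V * k := by
  calc ∑ d ∈ Oᶜ, (Oᶜ.filter fun x => G.Adj d x).card ≤ ∑ _d ∈ Oᶜ, k := by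
        refine Finset.sum_le_sum fun d _ => ?_
        refine (Finset.card_le_card ?_).trans (card_nbr hG d).le
        exact Finset.filter_subset_filter _ (Finset.subset_univ _)
    _ = Oᶜ.card * k := by rw [Finset.sum_const, smul_eq_mul]
    _ ≤ Fintype.card V * k := Nat.mul_le_mul_right _ (Finset.card_le_univ _)

open Classical in
theorem sum_far {V : Type*} [Fintype V] {G : SimpleGraph V} {k c : ℕ} (hG : Good G k)
    (O : Finset V) (hO : O.card ≤ c * k) :
    ((Oᶜ ×ˢ Oᶜ).filter fun p : V × V => p.1 = p.2 ∨ G.Adj p.1 p.2 ∨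
        ∃ d, G.Adj p.1 d ∧ G.Adj p.2 d).card ≤
      Fintype.card V + Fintype.card V * k + c * k ^ 3 +
        ∑ d ∈ Oᶜ, (Oᶜ.filter fun x => G.Adj d x).card ^ 2 := by
  have hsub : ((Oᶜ ×ˢ Oᶜ).filter fun p : V × V => p.1 = p.2 ∨ G.Adj p.1 p.2 ∨
        ∃ d, G.Adj p.1 d ∧ G.Adj p.2 d) ⊆
      ((Finset.univ.image fun x : V => (x, x)) ∪
        (Finset.univ.biUnion fun x : V => ({x} : Finset V) ×ˢ
          (Finset.univ.filter fun y => G.Adj x y)) ∪
        ((Finset.univ : Finset (V × V)).filter fun p => ∃ o ∈ O, G.Adj p.1 o ∧ G.Adj p.2 o)) ∪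
        (Oᶜ.biUnion fun d => (Oᶜ.filter fun x => G.Adj d x) ×ˢ
          (Oᶜ.filter fun x => G.Adj d x)) := by
    rintro ⟨x, y⟩ hp
    obtain ⟨hp, h⟩ := Finset.mem_filter.1 hp
    obtain ⟨hx, hy⟩ := Finset.mem_product.1 hp
    simp only [Finset.mem_union]
    rcases h with h | h | ⟨d, h1, h2⟩
    · refine Or.inl (Or.inl (Or.inl (Finset.mem_image.2 ⟨x, Finset.mem_univ _, ?_⟩)))
      exact Prod.ext rfl h
    · refine Or.inl (Or.inl (Or.inr (Finset.mem_biUnion.2 ⟨x, Finset.mem_univ _, ?_⟩)))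
      exact Finset.mem_product.2 ⟨Finset.mem_singleton_self _,
        Finset.mem_filter.2 ⟨Finset.mem_univ _, h⟩⟩
    · by_cases hd : d ∈ O
      · exact Or.inl (Or.inr (Finset.mem_filter.2 ⟨Finset.mem_univ _, d, hd, h1, h2⟩))
      · refine Or.inr (Finset.mem_biUnion.2 ⟨d, Finset.mem_compl.2 hd, ?_⟩)
        exact Finset.mem_product.2 ⟨Finset.mem_filter.2 ⟨hx, h1.symm⟩,
          Finset.mem_filter.2 ⟨hy, h2.symm⟩⟩
  refine (Finset.card_le_card hsub).trans ?_
  refine (Finset.card_union_le _ _).trans ?_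
  refine Nat.add_le_add ?_ ?_
  · refine (Finset.card_union_le _ _).trans ?_
    refine Nat.add_le_add ?_ (pairs_O hG O hO)
    refine (Finset.card_union_le _ _).trans ?_
    refine Nat.add_le_add ?_ ?_
    · exact Finset.card_image_le.trans (le_of_eq Finset.card_univ)
    · refine (Finset.card_biUnion_le_card_mul _ _ k ?_).trans
        (le_of_eq (by rw [Finset.card_univ]))
      intro x _
      rw [Finset.card_product, Finset.card_singleton, one_mul]
      exact (card_nbr hG x).le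
  · refine Finset.card_biUnion_le.trans (le_of_eq ?_)
    refine Finset.sum_congr rfl fun d _ => ?_
    rw [Finset.card_product, sq]

open Classical in
theorem sum_bad {V : Type*} [Fintype V] {G : SimpleGraph V} {k c : ℕ} (hG : Good G k)
    (O : Finset V) (hO : O.card ≤ c * k) (hC4 : ∀ z : Fin 4 → V, C4 G z → ∃ x, z x ∈ O) :
    ∑ d ∈ Oᶜ, (((Oᶜ.filter fun x => G.Adj d x) ×ˢ (Oᶜ.filter fun x => G.Adj d x)).filter
        fun p : V × V => p.1 = p.2 ∨ ∃ o ∈ O, G.Adj p.1 o ∧ G.Adj p.2 o).card ≤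
      Fintype.card V * k + c * k ^ 3 := by
  set B : V → Finset (V × V) := fun d =>
    ((Oᶜ.filter fun x => G.Adj d x) ×ˢ (Oᶜ.filter fun x => G.Adj d x)).filter
        fun p : V × V => p.1 ≠ p.2 ∧ ∃ o ∈ O, G.Adj p.1 o ∧ G.Adj p.2 o with hB
  have hterm : ∀ d ∈ Oᶜ, (((Oᶜ.filter fun x => G.Adj d x) ×ˢ
      (Oᶜ.filter fun x => G.Adj d x)).filter
        fun p : V × V => p.1 = p.2 ∨ ∃ o ∈ O, G.Adj p.1 o ∧ G.Adj p.2 o).card ≤
      (Oᶜ.filter fun x => G.Adj d x).card + (B d).card := by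
    intro d _
    have hsub : (((Oᶜ.filter fun x => G.Adj d x) ×ˢ (Oᶜ.filter fun x => G.Adj d x)).filter
        fun p : V × V => p.1 = p.2 ∨ ∃ o ∈ O, G.Adj p.1 o ∧ G.Adj p.2 o) ⊆
        ((Oᶜ.filter fun x => G.Adj d x).image fun x : V => (x, x)) ∪ B d := by
      rintro ⟨x, y⟩ hp
      obtain ⟨hp, h⟩ := Finset.mem_filter.1 hp
      obtain ⟨hx, hy⟩ := Finset.mem_product.1 hp
      rw [Finset.mem_union]
      by_cases hxy : x = y
      · exact Or.inl (Finset.mem_image.2 ⟨x, hx, Prod.ext rfl hxy⟩)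
      · refine Or.inr (Finset.mem_filter.2 ⟨hp, hxy, ?_⟩)
        exact h.resolve_left hxy
    refine (Finset.card_le_card hsub).trans ((Finset.card_union_le _ _).trans ?_)
    exact Nat.add_le_add_right Finset.card_image_le _
  refine (Finset.sum_le_sum hterm).trans ?_
  rw [Finset.sum_add_distrib]
  refine Nat.add_le_add (sum_deg hG O) ?_
  have hdisj : Set.PairwiseDisjoint (↑(Oᶜ) : Set V) B := by
    intro d hd d' hd' hdd
    refine Finset.disjoint_left.2 ?_
    rintro ⟨x, y⟩ h1 h2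
    obtain ⟨h1, hne, -⟩ := Finset.mem_filter.1 h1
    obtain ⟨hx, hy⟩ := Finset.mem_product.1 h1
    obtain ⟨h2, -⟩ := Finset.mem_filter.1 h2
    obtain ⟨hx', hy'⟩ := Finset.mem_product.1 h2
    obtain ⟨hxO, hxd⟩ := Finset.mem_filter.1 hx
    obtain ⟨hyO, hyd⟩ := Finset.mem_filter.1 hy
    have hxd' := (Finset.mem_filter.1 hx').2
    have hyd' := (Finset.mem_filter.1 hy').2
    obtain ⟨i, hi⟩ := hC4 ![x, y, d, d'] ⟨hne, hdd, hxd.symm, hxd'.symm, hyd.symm, hyd'.symm⟩
    have hd1 : d ∉ O := by simpa using hd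
    have hd2 : d' ∉ O := by simpa using hd'
    rw [Finset.mem_compl] at hxO hyO
    fin_cases i
    · exact hxO hi
    · exact hyO hi
    · exact hd1 hi
    · exact hd2 hi
  rw [← Finset.card_biUnion hdisj]
  refine (Finset.card_le_card ?_).trans (pairs_O hG O hO)
  intro p hp
  obtain ⟨d, _, hp⟩ := Finset.mem_biUnion.1 hp
  exact Finset.mem_filter.2 ⟨Finset.mem_univ _, (Finset.mem_filter.1 hp).2.2⟩

end Pool.Agent.H45.RM
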