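import Pool.Agent.H45.RM.Defs

/-!
# Crt: the critical edge

Among the `H : SimpleGraph (Fin (R (j+1) - 1))` with `Good H (j+1)` (`exists_good`) take a minimal
one for `≤` (finitely many graphs, or minimal number of edges).  It has an edge: `R (j+1) - 1 ≥ j+1`
(one edge plus `j - 1` isolated vertices is good for `j + 1`, `Good.card_lt`), so `⊥` is not good.
For an edge `u v` the graph `H - uv` (`H.deleteEdges {s(u,v)}`) is smaller, so not good, and it has no
triangle: an independent `S` of `H - uv` with `j + 1 ≤ |S|`.  `M = S`: the only pair of `S` adjacent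
in `H` is `u, v`.
-/

set_option autoImplicit false

namespace Pool.Agent.H45.RM

open Pool.Agent.H41.RamseyStep

private theorem R_big (j : ℕ) (hj : 1 ≤ j) : j + 1 < R (j + 1) := by
  classical
  set a : Fin (j + 1) := ⟨0, by omega⟩ with ha
  set b : Fin (j + 1) := ⟨1, by omega⟩ with hb
  have hab : a ≠ b := by
    intro h
    have := congrArg Fin.val h
    simp [ha, hb] at this
  have hG : Good (SimpleGraph.edge a b) (j + 1) := by
    refine ⟨fun x y z h1 h2 h3 => ?_, fun s hs => ?_⟩
    · rw [SimpleGraph.edge_adj] at h1 h2 h3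
      obtain ⟨h1, h1'⟩ := h1
      obtain ⟨h2, h2'⟩ := h2
      obtain ⟨h3, h3'⟩ := h3
      have hx : x = a ∨ x = b := by
        rcases h1 with h | h
        · exact Or.inl h.1
        · exact Or.inr h.1
      have hy : y = a ∨ y = b := by
        rcases h1 with h | h
        · exact Or.inr h.2
        · exact Or.inl h.2
      have hz : z = a ∨ z = b := by
        rcases h2 with h | h
        · exact Or.inr h.2
        · exact Or.inl h.2
      rcases hx with hx | hx <;> rcases hy with hy | hy
      · exact h1' (hx.trans hy.symm)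
      · rcases hz with hz | hz
        · exact h3' (hx.trans hz.symm)
        · exact h2' (hy.trans hz.symm)
      · rcases hz with hz | hz
        · exact h2' (hy.trans hz.symm)
        · exact h3' (hx.trans hz.symm)
      · exact h1' (hx.trans hy.symm)
    · by_contra h
      push Not at h
      have hu : s = Finset.univ := Finset.eq_univ_of_card s (le_antisymm (Finset.card_le_univ s) (by simpa using h))
      have h1 := hs a (by rw [hu]; exact Finset.mem_univ _) b (by rw [hu]; exact Finset.mem_univ _)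
      apply h1
      rw [SimpleGraph.edge_adj]
      exact ⟨Or.inl ⟨rfl, rfl⟩, hab⟩
  have h := hG.card_lt
  rwa [Fintype.card_fin] at h

/-- An extremal graph with an induced subgraph on `j + 1` vertices with one edge. -/
theorem crit (j : ℕ) (hj : 1 ≤ j) : ∃ H : SimpleGraph (Fin (R (j + 1) - 1)), Good H (j + 1) ∧
    ∃ M : Finset (Fin (R (j + 1) - 1)), j + 1 ≤ M.card ∧
      ∀ i ∈ M, ∀ l ∈ M, ∀ l' ∈ M, H.Adj i l → H.Adj i l' → l = l' := by
  classical
  have hR := R_big j hj
  obtain ⟨G, hG⟩ := exists_good (k := j + 1) (n := R (j + 1) - 1) (by omega)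
  obtain ⟨H, hH, hmin⟩ := (wellFounded_lt (α := SimpleGraph (Fin (R (j + 1) - 1)))).has_min
    {H : SimpleGraph (Fin (R (j + 1) - 1)) | Good H (j + 1)} ⟨G, hG⟩
  refine ⟨H, hH, ?_⟩
  -- an edge
  obtain ⟨u, v, huv⟩ : ∃ u v, H.Adj u v := by
    by_contra h
    push Not at h
    have h1 := hH.2 Finset.univ fun x _ y _ => h x y
    rw [Finset.card_univ, Fintype.card_fin] at h1
    omega
  have hlt : H.deleteEdges {s(u, v)} < H := by
    refine lt_of_le_of_ne (SimpleGraph.deleteEdges_le _) fun he => ?_
    have h1 : (H.deleteEdges {s(u, v)}).Adj u v := by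
      rw [he]
      exact huv
    rw [SimpleGraph.deleteEdges_adj] at h1
    exact h1.2 rfl
  have hng : ¬ Good (H.deleteEdges {s(u, v)}) (j + 1) := fun hg => hmin _ hg hlt
  have hT : ∀ a b c, (H.deleteEdges {s(u, v)}).Adj a b → (H.deleteEdges {s(u, v)}).Adj b c →
      (H.deleteEdges {s(u, v)}).Adj a c → False := fun a b c h1 h2 h3 =>
    hH.1 a b c (hlt.le h1) (hlt.le h2) (hlt.le h3)
  obtain ⟨S, hS, hScard⟩ : ∃ S : Finset (Fin (R (j + 1) - 1)),
      (∀ x ∈ S, ∀ y ∈ S, ¬ (H.deleteEdges {s(u, v)}).Adj x y) ∧ j + 1 ≤ S.card := by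
    by_contra h
    push Not at h
    exact hng ⟨hT, fun s hs => h s hs⟩
  refine ⟨S, hScard, fun i hi l hl l' hl' h1 h2 => ?_⟩
  have hs : ∀ y ∈ S, H.Adj i y → s(i, y) = s(u, v) := by
    intro y hy hiy
    by_contra hne
    refine hS i hi y hy ?_
    rw [SimpleGraph.deleteEdges_adj]
    exact ⟨hiy, hne⟩
  have e1 := hs l hl h1
  have e2 := hs l' hl' h2
  have e3 : s(i, l) = s(i, l') := e1.trans e2.symm
  rcases Sym2.eq_iff.1 e3 with ⟨_, h⟩ | ⟨h, h'⟩
  · exact h
  · rw [h', h]

end Pool.Agent.H45.RM
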