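import Pool.Agent.H45.RM.Exc

/-!
# Cyc: `|M|` pairwise apart 4-cycles

Order `M` by an equivalence `e : M ≃ Fin M.card` (`Finset.equivFin`), apply `exch`.  If `i ∈ M` has
no neighbour in `M`: `p i = q i = z (e i) 0`.  If `i ~ l` in `M`, `e i < e l`: `p i = z (e i) 0`,
`q i = z (e i) 1`, `p l = z (e i) 2`, `q l = z (e i) 3`.
-/

set_option autoImplicit false

namespace Pool.Agent.H45.RM

open Pool.Agent.H41.RamseyStep

theorem of_C4s {V Y : Type*} [Fintype V] [Fintype Y] {G : SimpleGraph V}
    {H : SimpleGraph Y} {k j : ℕ} (hG : Good G k) (hH : Good H (j + 1)) (M : Finset Y)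
    (hM : ∀ i ∈ M, ∀ l ∈ M, ∀ l' ∈ M, H.Adj i l → H.Adj i l' → l = l')
    (z : Fin M.card → Fin 4 → V) (hz : ∀ x, C4 G (z x))
    (hza : ∀ x y, x ≠ y → Apart G (z x) (z y)) :
    Fintype.card V + Fintype.card Y + M.card < R (k + j) := by
  classical
  rcases M.eq_empty_or_nonempty with rfl | hne
  · refine good_double hG hH ∅ (fun _ => ∅) (fun _ => ∅) ?_ ?_ ?_ ?_
    · intro i hi
      exact absurd hi (Finset.notMem_empty _)
    · intro i hi
      exact absurd hi (Finset.notMem_empty _)
    · intro i hi
      exact absurd hi (Finset.notMem_empty _)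
    · intro I T hT hI _ _
      have hT0 : T = ∅ := Finset.subset_empty.1 hT
      subst hT0
      have := hG.2 I hI
      simpa using this
  · have e := M.equivFin
    have hpos : 0 < M.card := Finset.card_pos.2 hne
    let c : Y → Fin M.card := fun i => if h : i ∈ M then e ⟨i, h⟩ else ⟨0, hpos⟩
    have hc : ∀ i ∈ M, ∀ l ∈ M, c i = c l → i = l := by
      intro i hi l hl h
      have h1 : c i = e ⟨i, hi⟩ := dif_pos hi
      have h2 : c l = e ⟨l, hl⟩ := dif_pos hl
      rw [h1, h2] at h
      exact congrArg Subtype.val (e.injective h)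
    let par : Y → Y := fun i => if h : ∃ l ∈ M, H.Adj i l then h.choose else i
    have hpar : ∀ i ∈ M, ∀ l ∈ M, H.Adj i l → par i = l := by
      intro i hi l hl hil
      have hex : ∃ l ∈ M, H.Adj i l := ⟨l, hl, hil⟩
      have h1 : par i = hex.choose := dif_pos hex
      rw [h1]
      exact hM i hi _ hex.choose_spec.1 l hl hex.choose_spec.2 hil
    have hpar0 : ∀ i, (¬ ∃ l ∈ M, H.Adj i l) → par i = i := fun i h => dif_neg h
    let ldr : Y → Y := fun i => if c (par i) < c i then par i else i
    let p : Y → V := fun i => if c (par i) < c i then z (c (par i)) 2 else z (c i) 0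
    let q : Y → V := fun i => if c (par i) < c i then z (c (par i)) 3 else
      if c i < c (par i) then z (c i) 1 else z (c i) 0
    have hp : ∀ i, ∃ a, p i = z (c (ldr i)) a := by
      intro i
      by_cases h : c (par i) < c i
      · refine ⟨2, ?_⟩
        have h1 : p i = z (c (par i)) 2 := if_pos h
        have h2 : ldr i = par i := if_pos h
        rw [h1, h2]
      · refine ⟨0, ?_⟩
        have h1 : p i = z (c i) 0 := if_neg h
        have h2 : ldr i = i := if_neg h
        rw [h1, h2]
    have hq : ∀ i, ∃ a, q i = z (c (ldr i)) a := by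
      intro i
      by_cases h : c (par i) < c i
      · refine ⟨3, ?_⟩
        have h1 : q i = z (c (par i)) 3 := if_pos h
        have h2 : ldr i = par i := if_pos h
        rw [h1, h2]
      · have h2 : ldr i = i := if_neg h
        by_cases h' : c i < c (par i)
        · refine ⟨1, ?_⟩
          have h1 : q i = z (c i) 1 := (if_neg h).trans (if_pos h')
          rw [h1, h2]
        · refine ⟨0, ?_⟩
          have h1 : q i = z (c i) 0 := (if_neg h).trans (if_neg h')
          rw [h1, h2]
    have hldr : ∀ i ∈ M, (ldr i = i) ∨ (ldr i ∈ M ∧ H.Adj i (ldr i)) := by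
      intro i hi
      by_cases h : c (par i) < c i
      · have h2 : ldr i = par i := if_pos h
        by_cases hex : ∃ l ∈ M, H.Adj i l
        · obtain ⟨l, hl, hil⟩ := hex
          have h3 := hpar i hi l hl hil
          right
          rw [h2, h3]
          exact ⟨hl, hil⟩
        · left
          rw [h2, hpar0 i hex]
      · exact Or.inl (if_neg h)
    have hlow : ∀ i ∈ M, ∀ l ∈ M, H.Adj i l → c i < c l →
        p i = z (c i) 0 ∧ q i = z (c i) 1 ∧ p l = z (c i) 2 ∧ q l = z (c i) 3 := by
      intro i hi l hl hil hlt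
      have h1 := hpar i hi l hl hil
      have h2 := hpar l hl i hi hil.symm
      have h3 : ¬ c (par i) < c i := by
        rw [h1]
        exact not_lt.2 hlt.le
      have h4 : c i < c (par i) := by
        rw [h1]
        exact hlt
      have h5 : c (par l) < c l := by
        rw [h2]
        exact hlt
      refine ⟨if_neg h3, (if_neg h3).trans (if_pos h4), ?_, ?_⟩
      · have h6 : p l = z (c (par l)) 2 := if_pos h5
        rw [h6, h2]
      · have h6 : q l = z (c (par l)) 3 := if_pos h5
        rw [h6, h2]
    have hcne : ∀ i ∈ M, ∀ l ∈ M, H.Adj i l → c i < c l ∨ c l < c i := by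
      intro i hi l hl hil
      rcases lt_trichotomy (c i) (c l) with h | h | h
      · exact Or.inl h
      · have h1 := hc i hi l hl h
        subst h1
        exact absurd hil (H.loopless.irrefl i)
      · exact Or.inr h
    refine exch hG hH M hM p q ?_ ?_ ?_ ?_
    · intro i hi l hl hil
      rcases hcne i hi l hl hil with h | h
      · obtain ⟨h1, h2, h3, h4⟩ := hlow i hi l hl hil h
        obtain ⟨-, -, a1, a2, a3, a4⟩ := hz (c i)
        rw [h1, h2, h3, h4]
        exact ⟨a1, a2, a3, a4⟩
      · obtain ⟨h1, h2, h3, h4⟩ := hlow l hl i hi hil.symm h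
        obtain ⟨-, -, a1, a2, a3, a4⟩ := hz (c l)
        rw [h1, h2, h3, h4]
        exact ⟨a1.symm, a3.symm, a2.symm, a4.symm⟩
    · intro i hi l hl hil hna
      have hcl : c (ldr i) ≠ c (ldr l) := by
        intro h
        rcases hldr i hi with h1 | ⟨h1, h1'⟩
        · rcases hldr l hl with h2 | ⟨h2, h2'⟩
          · rw [h1, h2] at h
            exact hil (hc i hi l hl h)
          · rw [h1] at h
            have h3 := hc i hi _ h2 h
            rw [← h3] at h2'
            exact hna h2'.symm
        · rcases hldr l hl with h2 | ⟨h2, h2'⟩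
          · rw [h2] at h
            have h3 := hc _ h1 l hl h
            rw [h3] at h1'
            exact hna h1'
          · have h3 := hc _ h1 _ h2 h
            rw [← h3] at h2'
            exact hil (hM _ h1 i hi l hl h1'.symm h2'.symm)
      obtain ⟨a, ha⟩ := hp i
      obtain ⟨a', ha'⟩ := hq i
      obtain ⟨b, hb⟩ := hp l
      obtain ⟨b', hb'⟩ := hq l
      have hA := hza _ _ hcl
      rw [ha, ha', hb, hb']
      exact ⟨(hA a b).1, (hA a b').1, (hA a' b).1, (hA a' b').1, (hA a b).2, (hA a b').2,
        (hA a' b).2, (hA a' b').2⟩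
    · intro i hi l hl hil
      rcases hcne i hi l hl hil with h | h
      · obtain ⟨h1, h2, -, -⟩ := hlow i hi l hl hil h
        rw [h1, h2]
        exact (hz (c i)).1
      · obtain ⟨-, -, h3, h4⟩ := hlow l hl i hi hil.symm h
        rw [h3, h4]
        exact (hz (c l)).2.1
    · intro i hi h
      have h1 : par i = i := hpar0 i (by
        rintro ⟨l, hl, hil⟩
        exact h l hl hil)
      have h2 : ¬ c (par i) < c i := by
        rw [h1]
        exact lt_irrefl _
      have h3 : ¬ c i < c (par i) := by
        rw [h1]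
        exact lt_irrefl _
      have h4 : q i = z (c i) 0 := (if_neg h2).trans (if_neg h3)
      have h5 : p i = z (c i) 0 := if_neg h2
      rw [h4, h5]

end Pool.Agent.H45.RM
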