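import Pool.Agent.H41.RamseyMain

/-!
# RM: windows of differences of `R(3,k)`, definitions

`Good G k` (`H41/RamseyStep`): `G` has no triangle and its independent sets have fewer than `k`
vertices; `R k = R(3,k)`.
-/

set_option autoImplicit false

namespace Pool.Agent.H45.RM

open Pool.Agent.H41.RamseyStep

/-- A 4-cycle with the sides `{z 0, z 1}` and `{z 2, z 3}`. -/
def C4 {V : Type*} (G : SimpleGraph V) (z : Fin 4 → V) : Prop :=
  z 0 ≠ z 1 ∧ z 2 ≠ z 3 ∧ G.Adj (z 0) (z 2) ∧ G.Adj (z 0) (z 3) ∧ G.Adj (z 1) (z 2) ∧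
    G.Adj (z 1) (z 3)

/-- Disjoint and non-adjacent. -/
def Apart {V : Type*} (G : SimpleGraph V) (z w : Fin 4 → V) : Prop :=
  ∀ x y, z x ≠ w y ∧ ¬ G.Adj (z x) (w y)

end Pool.Agent.H45.RM
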