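import Pool.Agent.H45.RM.Defs

/-!
# Dic: many 4-cycles which are pairwise apart, or a small set meeting every 4-cycle

Induction on `m`: given `m` cycles, `O` = union of the closed neighbourhoods of their `4 m`
vertices, `|O| ≤ 4 m k` (`card_nbr`); a 4-cycle which does not meet `O` is apart from all.
-/

set_option autoImplicit false

namespace Pool.Agent.H45.RM

open Pool.Agent.H41.RamseyStep

open Classical in
theorem card_nbr {V : Type*} [Fintype V] {G : SimpleGraph V} {k : ℕ} (hG : Good G k) (x : V) :
    (Finset.univ.filter fun y => G.Adj x y).card < k := by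
  apply hG.2
  intro a ha b hb hab
  exact hG.1 x a b (Finset.mem_filter.1 ha).2 hab (Finset.mem_filter.1 hb).2

private theorem apart_symm {V : Type*} {G : SimpleGraph V} {z w : Fin 4 → V}
    (h : Apart G z w) : Apart G w z :=
  fun x y => ⟨fun e => (h y x).1 e.symm, fun e => (h y x).2 e.symm⟩

open Classical in
private theorem card_closed {V : Type*} [Fintype V] {G : SimpleGraph V} {k m : ℕ}
    (hG : Good G k) (z : Fin m → Fin 4 → V) :
    (Finset.univ.biUnion fun p : Fin m × Fin 4 =>
      insert (z p.1 p.2) (Finset.univ.filter fun y => G.Adj (z p.1 p.2) y)).card ≤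
      4 * m * k := by
  refine le_trans (Finset.card_biUnion_le_card_mul _ _ k ?_) ?_
  · intro p _
    refine le_trans (Finset.card_insert_le _ _) ?_
    have := card_nbr hG (z p.1 p.2)
    omega
  · rw [Finset.card_univ, Fintype.card_prod, Fintype.card_fin, Fintype.card_fin]
    exact le_of_eq (by ring)

theorem dich {V : Type*} [Fintype V] {G : SimpleGraph V} {k : ℕ} (hG : Good G k) (m : ℕ) :
    (∃ z : Fin m → Fin 4 → V, (∀ x, C4 G (z x)) ∧ ∀ x y, x ≠ y → Apart G (z x) (z y)) ∨
      ∃ O : Finset V, O.card ≤ 4 * m * k ∧ ∀ z : Fin 4 → V, C4 G z → ∃ x, z x ∈ O := by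
  classical
  induction m with
  | zero => exact Or.inl ⟨fun x => x.elim0, fun x => x.elim0, fun x => x.elim0⟩
  | succ m ih =>
    have hle : 4 * m * k ≤ 4 * (m + 1) * k := Nat.mul_le_mul_right k (by omega)
    rcases ih with ⟨z, hz, ha⟩ | ⟨O, hO, h⟩
    · by_cases hh : ∀ w : Fin 4 → V, C4 G w → ∃ x, w x ∈
        (Finset.univ.biUnion fun p : Fin m × Fin 4 =>
          insert (z p.1 p.2) (Finset.univ.filter fun y => G.Adj (z p.1 p.2) y))
      · exact Or.inr ⟨_, (card_closed hG z).trans hle, hh⟩
      · push Not at hh
        obtain ⟨w, hw, hn⟩ := hh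
        have hap : ∀ y, Apart G w (z y) := by
          intro y x i
          have h1 := hn x
          rw [Finset.mem_biUnion] at h1
          push Not at h1
          have h2 := h1 (y, i) (Finset.mem_univ _)
          rw [Finset.mem_insert, not_or, Finset.mem_filter] at h2
          exact ⟨h2.1, fun e => h2.2 ⟨Finset.mem_univ _, e.symm⟩⟩
        refine Or.inl ⟨Fin.cons w z, ?_, ?_⟩
        · intro x
          refine Fin.cases ?_ (fun x => ?_) x
          · rw [Fin.cons_zero]; exact hw
          · rw [Fin.cons_succ]; exact hz x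
        · intro x y
          refine Fin.cases ?_ (fun x => ?_) x
          · refine Fin.cases (fun h => absurd rfl h) (fun y _ => ?_) y
            rw [Fin.cons_zero, Fin.cons_succ]
            exact hap y
          · refine Fin.cases (fun _ => ?_) (fun y h => ?_) y
            · rw [Fin.cons_zero, Fin.cons_succ]
              exact apart_symm (hap x)
            · rw [Fin.cons_succ, Fin.cons_succ]
              exact ha x y (fun e => h (by rw [e]))
    · exact Or.inr ⟨O, hO.trans hle, h⟩

end Pool.Agent.H45.RM
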