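import Pool.Agent.H45.RM.Att

/-!
# Exc: the exchange for 4-cycles

`A₁ i = {x ~ p i, x ≠ p l for all l ∈ M with l ~ i}`, `A₂ i = (N(q i) - N(p i)) + p i`, apply
`good_double`.  `hd` for `i ~ l` in `M`: `N(p i), N(q i)` are disjoint from `N(p l), N(q l)` (the
centres are adjacent), `p i ∉ A₁ l`, `p i ∉ N(q l) - N(p l)`, `p i ≠ p l`.
`hI`: `T ⊆ M` independent, `I` independent and disjoint from `A₁ i`, `A₂ i` (`i ∈ T`).
`p i ∉ I`; an element of `I` adjacent to `p i` or to `q i` is `p l` with `l ∈ M`, `l ~ i`.  Let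
`I' = I - {p l : l ∈ M, l ~ some i ∈ T} + {p i : i ∈ T} + {q i : i ∈ T, p l ∈ I for the
neighbour l ∈ M of i}`.  `I'` is independent and `|I'| ≥ |I| + |T|` (`q i ∉ I` if `p l ∈ I`, since
`q i ~ p l`; `i ↦ l` is injective on the third set, so it is at least as large as the removed part
of `I`; the `p i`, `q i` of different `i ∈ T` are different and non-adjacent, `p i ≠ q i` if `i` has
a neighbour in `M`, and then `p i, q i` have the common neighbour `p l`).  `|I'| < k` by `hG.2`.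
-/

set_option autoImplicit false

namespace Pool.Agent.H45.RM

open Pool.Agent.H41.RamseyStep

theorem exch {V Y : Type*} [Fintype V] [Fintype Y] {G : SimpleGraph V}
    {H : SimpleGraph Y} {k j : ℕ} (hG : Good G k) (hH : Good H (j + 1)) (M : Finset Y)
    (hM : ∀ i ∈ M, ∀ l ∈ M, ∀ l' ∈ M, H.Adj i l → H.Adj i l' → l = l')
    (p q : Y → V)
    (hadj : ∀ i ∈ M, ∀ l ∈ M, H.Adj i l → G.Adj (p i) (p l) ∧ G.Adj (p i) (q l) ∧
      G.Adj (q i) (p l) ∧ G.Adj (q i) (q l))
    (hnon : ∀ i ∈ M, ∀ l ∈ M, i ≠ l → ¬ H.Adj i l → p i ≠ p l ∧ p i ≠ q l ∧ q i ≠ p l ∧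
      q i ≠ q l ∧ ¬ G.Adj (p i) (p l) ∧ ¬ G.Adj (p i) (q l) ∧ ¬ G.Adj (q i) (p l) ∧
      ¬ G.Adj (q i) (q l))
    (hne : ∀ i ∈ M, ∀ l ∈ M, H.Adj i l → p i ≠ q i)
    (heq : ∀ i ∈ M, (∀ l ∈ M, ¬ H.Adj i l) → q i = p i) :
    Fintype.card V + Fintype.card Y + M.card < R (k + j) := by
  classical
  have tri := hG.1
  have irr : ∀ a, ¬ G.Adj a a := fun a h => G.loopless.irrefl a h
  refine good_double hG hH M
    (fun i => {x | G.Adj (p i) x ∧ ∀ l ∈ M, H.Adj l i → x ≠ p l})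
    (fun i => {x | (G.Adj (q i) x ∧ ¬ G.Adj (p i) x) ∨ x = p i}) ?_ ?_ ?_ ?_
  · rintro i - u ⟨hu, -⟩ v ⟨hv, -⟩ huv
    exact tri _ _ _ hu huv hv
  · rintro i - u hu v hv huv
    rcases hu with ⟨hu, hu'⟩ | rfl
    · rcases hv with ⟨hv, hv'⟩ | rfl
      · exact tri _ _ _ hu huv hv
      · exact hu' huv.symm
    · rcases hv with ⟨hv, hv'⟩ | rfl
      · exact hv' huv
      · exact irr _ huv
  · rintro i hi l hl hil u hu hu'
    obtain ⟨a1, a2, a3, a4⟩ := hadj i hi l hl hil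
    rcases hu with ⟨hu, hn⟩ | ⟨hu, hn⟩ | rfl
    · rcases hu' with ⟨hu', -⟩ | ⟨hu', -⟩ | rfl
      · exact tri _ _ _ a1 hu' hu
      · exact tri _ _ _ a2 hu' hu
      · exact hn l hl hil.symm rfl
    · rcases hu' with ⟨hu', -⟩ | ⟨hu', -⟩ | rfl
      · exact tri _ _ _ a3 hu' hu
      · exact tri _ _ _ a4 hu' hu
      · exact hn a1
    · rcases hu' with ⟨-, hn'⟩ | ⟨-, hn'⟩ | h
      · exact hn' i hi hil rfl
      · exact hn' a1.symm
      · rw [h] at a1
        exact irr _ a1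
  · intro I T hTM hI hT hA
    have hpI : ∀ i ∈ T, p i ∉ I := fun i hi h => (hA i hi _ h).2 (Or.inr rfl)
    have hp : ∀ i ∈ T, ∀ u ∈ I, G.Adj (p i) u → ∃ l ∈ M, H.Adj l i ∧ u = p l := by
      intro i hi u hu hau
      by_contra hcon
      push Not at hcon
      exact (hA i hi u hu).1 ⟨hau, hcon⟩
    have hq : ∀ i ∈ T, ∀ u ∈ I, G.Adj (q i) u → ∃ l ∈ M, H.Adj l i ∧ u = p l := by
      intro i hi u hu hau
      refine hp i hi u hu ?_
      by_contra hcon
      exact (hA i hi u hu).2 (Or.inl ⟨hau, hcon⟩)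
    set T' : Finset Y := T.filter (fun i => ∃ l ∈ M, H.Adj l i ∧ p l ∈ I) with hT'
    set D : Finset V := I.filter (fun u => ∃ i ∈ T, ∃ l ∈ M, H.Adj l i ∧ u = p l) with hD
    have mT' : ∀ i, i ∈ T' ↔ i ∈ T ∧ ∃ l ∈ M, H.Adj l i ∧ p l ∈ I := fun i => by
      rw [hT', Finset.mem_filter]
    have mD : ∀ u, u ∈ D ↔ u ∈ I ∧ ∃ i ∈ T, ∃ l ∈ M, H.Adj l i ∧ u = p l := fun u => by
      rw [hD, Finset.mem_filter]
    -- the removed part is not larger than the third set
    have hDT : D.card ≤ T'.card := by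
      let g : Y → V := fun i => if h : ∃ l ∈ M, H.Adj l i then p h.choose else p i
      refine (Finset.card_le_card (t := T'.image g) ?_).trans Finset.card_image_le
      intro u hu
      obtain ⟨huI, i, hi, l, hl, hli, rfl⟩ := (mD u).1 hu
      refine Finset.mem_image.2 ⟨i, (mT' i).2 ⟨hi, l, hl, hli, huI⟩, ?_⟩
      have hex : ∃ l ∈ M, H.Adj l i := ⟨l, hl, hli⟩
      have h1 : g i = p hex.choose := dif_pos hex
      rw [h1, hM i (hTM hi) hex.choose hex.choose_spec.1 l hl hex.choose_spec.2.symm hli.symm]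
    have hnonT : ∀ i ∈ T, ∀ l ∈ T, i ≠ l → p i ≠ p l ∧ p i ≠ q l ∧ q i ≠ p l ∧
      q i ≠ q l ∧ ¬ G.Adj (p i) (p l) ∧ ¬ G.Adj (p i) (q l) ∧ ¬ G.Adj (q i) (p l) ∧
      ¬ G.Adj (q i) (q l) := fun i hi l hl hil =>
      hnon i (hTM hi) l (hTM hl) hil (hT i hi l hl)
    have hself : ∀ i ∈ T', p i ≠ q i ∧ ¬ G.Adj (p i) (q i) := by
      intro i hi
      obtain ⟨hiT, l, hl, hli, -⟩ := (mT' i).1 hi
      obtain ⟨a1, -, a3, -⟩ := hadj i (hTM hiT) l hl hli.symm
      exact ⟨hne i (hTM hiT) l hl hli.symm, fun h => tri _ _ _ h a3 a1⟩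
    have hpinj : (T.image p).card = T.card := Finset.card_image_of_injOn (by
      intro i hi l hl h
      by_contra hil
      exact (hnonT i hi l hl hil).1 h)
    have hsub : T' ⊆ T := Finset.filter_subset _ _
    have hqinj : (T'.image q).card = T'.card := Finset.card_image_of_injOn (by
      intro i hi l hl h
      by_contra hil
      exact (hnonT i (hsub hi) l (hsub hl) hil).2.2.2.1 h)
    -- the new independent set
    have d1 : Disjoint (I \ D) (T.image p) := by
      rw [Finset.disjoint_left]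
      intro u hu hu'
      obtain ⟨i, hi, rfl⟩ := Finset.mem_image.1 hu'
      exact hpI i hi (Finset.mem_sdiff.1 hu).1
    have d2 : Disjoint ((I \ D) ∪ T.image p) (T'.image q) := by
      rw [Finset.disjoint_left]
      intro u hu hu'
      obtain ⟨i, hi, rfl⟩ := Finset.mem_image.1 hu'
      rcases Finset.mem_union.1 hu with hu | hu
      · obtain ⟨hiT, l, hl, hli, hlI⟩ := (mT' i).1 hi
        exact hI _ (Finset.mem_sdiff.1 hu).1 _ hlI (hadj i (hTM hiT) l hl hli.symm).2.2.1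
      · obtain ⟨l, hl, h⟩ := Finset.mem_image.1 hu
        by_cases hil : l = i
        · subst hil
          exact (hself l hi).1 h
        · exact (hnonT l hl i (hsub hi) hil).2.1 h
    have hcard : ((I \ D) ∪ T.image p ∪ T'.image q).card =
        (I \ D).card + T.card + T'.card := by
      rw [Finset.card_union_of_disjoint d2, Finset.card_union_of_disjoint d1, hpinj, hqinj]
    have hsd : (I \ D).card + D.card = I.card :=
      Finset.card_sdiff_add_card_eq_card (Finset.filter_subset _ _)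
    have hxp : ∀ u ∈ I \ D, ∀ i ∈ T, ¬ G.Adj (p i) u := by
      intro u hu i hi hau
      obtain ⟨h1, h2⟩ := Finset.mem_sdiff.1 hu
      obtain ⟨l, hl, hli, rfl⟩ := hp i hi u h1 hau
      exact h2 ((mD _).2 ⟨h1, i, hi, l, hl, hli, rfl⟩)
    have hxq : ∀ u ∈ I \ D, ∀ i ∈ T, ¬ G.Adj (q i) u := by
      intro u hu i hi hau
      obtain ⟨h1, h2⟩ := Finset.mem_sdiff.1 hu
      obtain ⟨l, hl, hli, rfl⟩ := hq i hi u h1 hau
      exact h2 ((mD _).2 ⟨h1, i, hi, l, hl, hli, rfl⟩)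
    have hpq : ∀ i ∈ T, ∀ l ∈ T', ¬ G.Adj (p i) (q l) := by
      intro i hi l hl
      by_cases hil : i = l
      · subst hil
        exact (hself i hl).2
      · exact (hnonT i hi l (hsub hl) hil).2.2.2.2.2.1
    have hind := hG.2 ((I \ D) ∪ T.image p ∪ T'.image q) (by
      intro x hx y hy hxy
      simp only [Finset.mem_union, Finset.mem_image] at hx hy
      rcases hx with (hx | ⟨i, hi, rfl⟩) | ⟨i, hi, rfl⟩
      · rcases hy with (hy | ⟨l, hl, rfl⟩) | ⟨l, hl, rfl⟩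
        · exact hI x (Finset.mem_sdiff.1 hx).1 y (Finset.mem_sdiff.1 hy).1 hxy
        · exact hxp x hx l hl hxy.symm
        · exact hxq x hx l (hsub hl) hxy.symm
      · rcases hy with (hy | ⟨l, hl, rfl⟩) | ⟨l, hl, rfl⟩
        · exact hxp y hy i hi hxy
        · by_cases hil : i = l
          · subst hil
            exact irr _ hxy
          · exact (hnonT i hi l hl hil).2.2.2.2.1 hxy
        · exact hpq i hi l hl hxy
      · rcases hy with (hy | ⟨l, hl, rfl⟩) | ⟨l, hl, rfl⟩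
        · exact hxq y hy i (hsub hi) hxy
        · exact hpq l hl i hi hxy.symm
        · by_cases hil : i = l
          · subst hil
            exact irr _ hxy
          · exact (hnonT i (hsub hi) l (hsub hl) hil).2.2.2.2.2.2.2 hxy)
    rw [hcard] at hind
    omega

end Pool.Agent.H45.RM
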