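import Pool.Agent.H45.RM.Sta
import Pool.Agent.H45.RM.Car
import Pool.Agent.H45.RM.Cnt

/-!
# Fnd: a star or far gadget in a graph without 4-cycles outside a small set

`s = 2 r`, `n = |V|`, `W = V - O`, `L d = N(d) ∩ W`.
FAR: if `s Q < |W|²` for the conflict `C x y := x = y ∨ x ~ y ∨ ∃ d, x ~ d ∧ y ~ d` on `W`, take
`S` from `caro`, `of_star'` with `D = ∅`.
STAR at `d ∈ W`: if `s Q_d < |L d|²` for the conflict `x = y ∨ ∃ o ∈ O, x ~ o ∧ y ~ o` on `L d`,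
take `S ⊆ L d` from `caro`, `of_star'` with `D = {d}` (a common neighbour `w ≠ d` of `x ≠ y` in `S`
is not in `O`, so `![x, y, w, d]` is a 4-cycle outside `O`).
Otherwise `|W|² ≤ s Q`, `Q ≤ n + n k + c k³ + ∑_{d ∈ W} |L d|²` (`sum_far`), and `|L d|² ≤ s Q_d`,
`∑_{d ∈ W} Q_d ≤ n k + c k³` (`sum_bad`).  So `|W|² ≤ s (s + 1) (n + n k + c k³)`;
`|W| ≥ n - c k ≥ n / 2`; `h1`, `h2` give a contradiction (`k ≥ 1` since `Good G 0` is false;
`n + n k ≤ 2 n k ≤ 2 n² / K`, `c k³ ≤ c n² / K`, `K = 8 (s + 1)² (c + 1) > 4 s (s + 1) (c + 2)`).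
-/

set_option autoImplicit false

namespace Pool.Agent.H45.RM

open Pool.Agent.H41.RamseyStep

private theorem fnd_arith {s n k c w : ℕ} (hk : 1 ≤ k) (hn : 1 ≤ n)
    (h1 : 8 * (s + 1) ^ 2 * (c + 1) * k ≤ n) (h2 : 8 * (s + 1) ^ 2 * (c + 1) * k ^ 3 ≤ n ^ 2)
    (hw : n ≤ w + c * k) (F : ℕ) (hF : w ^ 2 ≤ s * (n + n * k + c * k ^ 3 + F))
    (hF2 : F ≤ s * (n * k + c * k ^ 3)) : False := by
  have h3 : n ≤ 2 * w := by
    have h4 : 8 * (c * k) ≤ n := by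
      refine le_trans ?_ h1
      have h5 : 1 ≤ (s + 1) ^ 2 := Nat.one_le_pow _ _ (Nat.succ_pos s)
      calc 8 * (c * k) ≤ 8 * ((c + 1) * k) := by gcongr; omega
        _ = 8 * 1 * ((c + 1) * k) := by ring
        _ ≤ 8 * (s + 1) ^ 2 * ((c + 1) * k) := by gcongr
        _ = 8 * (s + 1) ^ 2 * (c + 1) * k := by ring
    omega
  have h4 : n ^ 2 ≤ 4 * w ^ 2 := by
    calc n ^ 2 ≤ (2 * w) ^ 2 := Nat.pow_le_pow_left h3 2
      _ = 4 * w ^ 2 := by ring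
  have hnk : n ≤ n * k := Nat.le_mul_of_pos_right n hk
  have h5 : w ^ 2 ≤ s * (s + 1) * (2 * (n * k) + c * k ^ 3) := by
    refine hF.trans ?_
    have h6 : n + n * k + c * k ^ 3 + F ≤ (s + 1) * (2 * (n * k) + c * k ^ 3) := by
      nlinarith
    calc s * (n + n * k + c * k ^ 3 + F) ≤ s * ((s + 1) * (2 * (n * k) + c * k ^ 3)) :=
          Nat.mul_le_mul_left s h6
      _ = _ := by ring
  have h6 : n ^ 2 ≤ 4 * (s * (s + 1) * (2 * (n * k) + c * k ^ 3)) :=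
    h4.trans (Nat.mul_le_mul_left 4 h5)
  have e1 : 8 * (s + 1) ^ 2 * (c + 1) * k * n ≤ n ^ 2 := by
    rw [sq n]
    exact Nat.mul_le_mul_right n h1
  have h7 : 2 * (s + 1) * (c + 1) * n ^ 2 ≤ 2 * s * n ^ 2 + s * c * n ^ 2 := by
    calc 2 * (s + 1) * (c + 1) * n ^ 2
        ≤ 2 * (s + 1) * (c + 1) * (4 * (s * (s + 1) * (2 * (n * k) + c * k ^ 3))) :=
          Nat.mul_le_mul_left _ h6
      _ = 2 * s * (8 * (s + 1) ^ 2 * (c + 1) * k * n) +
          s * c * (8 * (s + 1) ^ 2 * (c + 1) * k ^ 3) := by ring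
      _ ≤ 2 * s * n ^ 2 + s * c * n ^ 2 :=
          add_le_add (Nat.mul_le_mul_left _ e1) (Nat.mul_le_mul_left _ h2)
  have h8 : 0 < n ^ 2 := Nat.pow_pos hn
  nlinarith [Nat.zero_le (s * c * n ^ 2), Nat.zero_le (c * n ^ 2)]

theorem find {V : Type*} [Fintype V] {G : SimpleGraph V} {k : ℕ} (hG : Good G k) (r c : ℕ)
    (O : Finset V) (hO : O.card ≤ c * k) (hC4 : ∀ z : Fin 4 → V, C4 G z → ∃ x, z x ∈ O)
    (h1 : 8 * (2 * r + 1) ^ 2 * (c + 1) * k ≤ Fintype.card V)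
    (h2 : 8 * (2 * r + 1) ^ 2 * (c + 1) * k ^ 3 ≤ Fintype.card V ^ 2) :
    Fintype.card V + 2 * r < R (k + 1) := by
  classical
  have hk : 1 ≤ k := by
    have h := hG.2 ∅ (by simp)
    rw [Finset.card_empty] at h
    exact h
  have hn : 1 ≤ Fintype.card V := by
    refine le_trans ?_ h1
    have h5 : 1 ≤ (2 * r + 1) ^ 2 := Nat.one_le_pow _ _ (Nat.succ_pos _)
    have h6 : 1 * 1 ≤ (2 * r + 1) ^ 2 * ((c + 1) * k) :=
      Nat.mul_le_mul h5 (Nat.mul_pos (Nat.succ_pos c) hk)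
    calc 1 ≤ 8 * ((2 * r + 1) ^ 2 * ((c + 1) * k)) := by omega
      _ = _ := by ring
  -- far
  by_cases hfar : 2 * r * ((Oᶜ ×ˢ Oᶜ).filter fun p : V × V => p.1 = p.2 ∨ G.Adj p.1 p.2 ∨
        ∃ d, G.Adj p.1 d ∧ G.Adj p.2 d).card < (Oᶜ : Finset V).card ^ 2
  · obtain ⟨S, -, hS, hSC⟩ := caro
      (fun x y : V => x = y ∨ G.Adj x y ∨ ∃ d, G.Adj x d ∧ G.Adj y d) (fun x => Or.inl rfl)
      (by
        rintro x y (h | h | ⟨d, hx, hy⟩)
        · exact Or.inl h.symm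
        · exact Or.inr (Or.inl h.symm)
        · exact Or.inr (Or.inr ⟨d, hy, hx⟩)) Oᶜ (2 * r) hfar
    refine of_star' hG r S hS ∅ (fun x hx => hx.elim) ?_ ?_
    · intro x hx y hy hxy
      have := hSC x hx y hy (Or.inr (Or.inl hxy))
      exact hxy.ne this
    · intro x hx y hy w hxy hxw hyw
      exact absurd (hSC x hx y hy (Or.inr (Or.inr ⟨w, hxw, hyw⟩))) hxy
  by_cases hstar : ∃ d ∈ (Oᶜ : Finset V), 2 * r *
      (((Oᶜ.filter fun x => G.Adj d x) ×ˢ (Oᶜ.filter fun x => G.Adj d x)).filter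
        fun p : V × V => p.1 = p.2 ∨ ∃ o ∈ O, G.Adj p.1 o ∧ G.Adj p.2 o).card <
      (Oᶜ.filter fun x => G.Adj d x).card ^ 2
  · obtain ⟨d, hd, hlt⟩ := hstar
    obtain ⟨S, hSL, hS, hSC⟩ := caro
      (fun x y : V => x = y ∨ ∃ o ∈ O, G.Adj x o ∧ G.Adj y o) (fun x => Or.inl rfl)
      (by
        rintro x y (h | ⟨o, ho, hx, hy⟩)
        · exact Or.inl h.symm
        · exact Or.inr ⟨o, ho, hy, hx⟩) (Oᶜ.filter fun x => G.Adj d x) (2 * r) hlt
    have hmem : ∀ x ∈ S, x ∉ O ∧ G.Adj d x := by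
      intro x hx
      have h := Finset.mem_filter.1 (hSL hx)
      exact ⟨Finset.mem_compl.1 h.1, h.2⟩
    refine of_star' hG r S hS {d} (fun x hx y hy => ?_) ?_ ?_
    · rw [Set.mem_singleton_iff] at hx hy
      rw [hx, hy]
    · intro x hx y hy hxy
      exact hG.1 d x y (hmem x hx).2 hxy (hmem y hy).2
    · intro x hx y hy w hxy hxw hyw
      rw [Set.mem_singleton_iff]
      by_contra hwd
      obtain ⟨i, hi⟩ := hC4 ![x, y, w, d]
        ⟨hxy, hwd, hxw, (hmem x hx).2.symm, hyw, (hmem y hy).2.symm⟩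
      fin_cases i
      · exact (hmem x hx).1 hi
      · exact (hmem y hy).1 hi
      · exact hxy (hSC x hx y hy (Or.inr ⟨w, hi, hxw, hyw⟩))
      · exact (Finset.mem_compl.1 hd) hi
  exfalso
  push Not at hfar hstar
  have hfar2 := sum_far (c := c) hG O hO
  have hbad := sum_bad hG O hO hC4
  refine fnd_arith (s := 2 * r) (w := (Oᶜ : Finset V).card) hk hn h1 h2 ?_
    (∑ d ∈ Oᶜ, (Oᶜ.filter fun x => G.Adj d x).card ^ 2)
    (hfar.trans (Nat.mul_le_mul_left _ hfar2)) ?_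
  · have h3 := Finset.card_add_card_compl O
    omega
  · refine (Finset.sum_le_sum fun d hd => hstar d hd).trans ?_
    rw [← Finset.mul_sum]
    exact Nat.mul_le_mul_left _ hbad

end Pool.Agent.H45.RM
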