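import Pool.Agent.H45.RM.Gr2

/-!
# Gr3: the inequalities used by `find` for nearly extremal graphs
-/

set_option autoImplicit false

namespace Pool.Agent.H45.RM

open Pool.Agent.H41.RamseyStep

theorem growth_near (ε : ℝ) (hε : 0 < ε) : ∃ k₀ : ℕ, ∀ k : ℕ, k₀ ≤ k → ∀ r s n : ℕ, 1 ≤ r →
    1 ≤ s → (r : ℝ) ^ 2 * s ≤ (k : ℝ) ^ (1 - ε) → R (k + 1) ≤ n + 2 * r →
    8 * (2 * r + 1) ^ 2 * (4 * s + 1) * k ≤ n ∧
      8 * (2 * r + 1) ^ 2 * (4 * s + 1) * k ^ 3 ≤ n ^ 2 := by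
  obtain ⟨k₀, hk₀⟩ := growth_find (ε / 2) (by linarith)
  obtain ⟨k₁, hk₁⟩ : ∃ k₁ : ℕ, ∀ k : ℕ, k₁ ≤ k → (5 : ℝ) ≤ (k : ℝ) ^ (ε / 2) := by
    have h1 := (tendsto_rpow_atTop (by linarith : 0 < ε / 2)).comp
      (tendsto_natCast_atTop_atTop (R := ℝ))
    obtain ⟨k₁, h⟩ := Filter.eventually_atTop.1 (h1.eventually_ge_atTop 5)
    exact ⟨k₁, h⟩
  refine ⟨max (max k₀ k₁) 1, fun k hk r s n hr hs hrs hn => ?_⟩
  have hk0 : k₀ ≤ k := ((le_max_left _ _).trans (le_max_left _ _)).trans hk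
  have hk1 : k₁ ≤ k := ((le_max_right _ _).trans (le_max_left _ _)).trans hk
  have hk2 : 1 ≤ k := (le_max_right _ _).trans hk
  have hkp : (0 : ℝ) < k := by exact_mod_cast hk2
  have h1 : (r : ℝ) ^ 2 * ((5 * s : ℕ) : ℝ) ≤ (k : ℝ) ^ (1 - ε / 2) := by
    calc (r : ℝ) ^ 2 * ((5 * s : ℕ) : ℝ) = 5 * ((r : ℝ) ^ 2 * s) := by push_cast; ring
      _ ≤ (k : ℝ) ^ (ε / 2) * (k : ℝ) ^ (1 - ε) := by
          apply mul_le_mul (hk₁ k hk1) hrs (by positivity) (by positivity)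
      _ = (k : ℝ) ^ (1 - ε / 2) := by
          rw [← Real.rpow_add hkp]
          congr 1
          ring
  obtain ⟨g1, g2⟩ := hk₀ k hk0 r (5 * s) hr (by omega) h1
  have hR : R k ≤ R (k + 1) := by
    have := Pool.Agent.H41.RamseyStep.R_mono (Nat.le_succ k)
    exact this
  set q : ℕ := 8 * (2 * r + 1) ^ 2 with hq
  have h3 : 4 * (4 * s + 1) ≤ 4 * (5 * s) + 1 := by omega
  have h4 : q * (4 * (4 * s + 1)) ≤ q * (4 * (5 * s) + 1) := Nat.mul_le_mul_left _ h3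
  have h5 : 4 * (q * (4 * s + 1) * k) ≤ R k - 1 := by
    calc 4 * (q * (4 * s + 1) * k) = q * (4 * (4 * s + 1)) * k := by ring
      _ ≤ q * (4 * (5 * s) + 1) * k := Nat.mul_le_mul_right _ h4
      _ ≤ R k - 1 := g1
  have h6 : 4 * (q * (4 * s + 1) * k ^ 3) ≤ (R k - 1) ^ 2 := by
    calc 4 * (q * (4 * s + 1) * k ^ 3) = q * (4 * (4 * s + 1)) * k ^ 3 := by ring
      _ ≤ q * (4 * (5 * s) + 1) * k ^ 3 := Nat.mul_le_mul_right _ h4
      _ ≤ (R k - 1) ^ 2 := g2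
  have h7 : r ≤ q * (4 * s + 1) * k := by
    have a1 : r ≤ q := by
      rw [hq]
      nlinarith
    calc r ≤ q := a1
      _ ≤ q * (4 * s + 1) := Nat.le_mul_of_pos_right _ (by omega)
      _ ≤ q * (4 * s + 1) * k := Nat.le_mul_of_pos_right _ (by omega)
  have h8 : R k - 1 ≤ 2 * n := by omega
  constructor
  · omega
  · have h9 : (R k - 1) ^ 2 ≤ (2 * n) ^ 2 := Nat.pow_le_pow_left h8 2
    have h10 : (2 * n) ^ 2 = 4 * n ^ 2 := by ring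
    omega

end Pool.Agent.H45.RM
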