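import Pool.Agent.H45.RM.Defs

/-!
# Sml: explicit graphs with 8, 13, 17 and 22 vertices
-/

set_option autoImplicit false

namespace Pool.Agent.H45.RM

open Pool.Agent.H41.RamseyStep

/-- The graph on `Fin n` with the neighbourhoods given by bit masks. -/
def maskAdj (n : ℕ) (a : Fin n → ℕ) (i j : Fin n) : Bool := Nat.testBit (a i) j

/-- The graph on `Fin n` with the neighbourhoods given by bit masks. -/
def maskGraph (n : ℕ) (a : Fin n → ℕ) (h1 : ∀ i j, maskAdj n a i j = maskAdj n a j i)
    (h2 : ∀ i, maskAdj n a i i = false) : SimpleGraph (Fin n) where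
  Adj i j := maskAdj n a i j = true
  symm := ⟨fun i j h => by rw [h1]; exact h⟩
  loopless := ⟨fun i h => by rw [h2] at h; exact Bool.false_ne_true h⟩

/-- Is there an independent set with `m` elements in the list `l`, all of whose elements are
outside the mask `f`? -/
def hasInd (n : ℕ) (a : Fin n → ℕ) : List (Fin n) → ℕ → ℕ → Bool
  | _, _, 0 => true
  | [], _, _ + 1 => false
  | x :: l, f, m + 1 =>
    (!Nat.testBit f x && hasInd n a l (f ||| a x) m) || hasInd n a l f (m + 1)

theorem hasInd_of (n : ℕ) (a : Fin n → ℕ) : ∀ (l : List (Fin n)) (f m : ℕ) (s : Finset (Fin n)),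
    (∀ x ∈ s, x ∈ l) → (∀ x ∈ s, ∀ y ∈ s, maskAdj n a x y = false) →
    (∀ x ∈ s, Nat.testBit f x = false) → m ≤ s.card → hasInd n a l f m = true := by
  intro l
  induction l with
  | nil =>
    intro f m s h1 h2 h3 h4
    cases m with
    | zero => rfl
    | succ m =>
      have : s = ∅ := by
        rw [Finset.eq_empty_iff_forall_notMem]
        intro x hx
        exact List.not_mem_nil (h1 x hx)
      rw [this] at h4
      simp at h4
  | cons x l ih =>
    intro f m s h1 h2 h3 h4
    cases m with
    | zero => rfl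
    | succ m =>
      rw [hasInd, Bool.or_eq_true, Bool.and_eq_true]
      by_cases hx : x ∈ s
      · left
        refine ⟨by rw [h3 x hx]; rfl, ?_⟩
        apply ih _ _ (s.erase x)
        · intro y hy
          have hy' := Finset.mem_erase.1 hy
          exact (List.mem_cons.1 (h1 y hy'.2)).resolve_left hy'.1
        · intro y hy z hz
          exact h2 y (Finset.mem_of_mem_erase hy) z (Finset.mem_of_mem_erase hz)
        · intro y hy
          rw [Nat.testBit_or, h3 y (Finset.mem_of_mem_erase hy)]
          exact h2 x hx y (Finset.mem_of_mem_erase hy)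
        · rw [Finset.card_erase_of_mem hx]
          omega
      · right
        apply ih _ _ s _ h2 h3 h4
        intro y hy
        rcases List.mem_cons.1 (h1 y hy) with rfl | h
        · exact absurd hy hx
        · exact h

theorem good_mask (n : ℕ) (a : Fin n → ℕ) (h1 : ∀ i j, maskAdj n a i j = maskAdj n a j i)
    (h2 : ∀ i, maskAdj n a i i = false) (k : ℕ)
    (h3 : ∀ i j, maskAdj n a i j = true → Nat.land (a i) (a j) = 0)
    (h4 : hasInd n a (List.finRange n) 0 k = false) : Good (maskGraph n a h1 h2) k := by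
  constructor
  · intro x y z hxy hyz hxz
    have h5 := h3 x y hxy
    have h6 : Nat.testBit (a x &&& a y) z = false := by
      have : a x &&& a y = 0 := h5
      rw [this, Nat.zero_testBit]
    rw [Nat.testBit_and] at h6
    have h7 : Nat.testBit (a x) z = true := hxz
    have h8 : Nat.testBit (a y) z = true := hyz
    rw [h7, h8] at h6
    exact Bool.false_ne_true h6.symm
  · intro s hs
    by_contra hk
    rw [not_lt] at hk
    have h5 := hasInd_of n a (List.finRange n) 0 k s (fun x _ => List.mem_finRange x)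
      (fun x hx y hy => by
        have := hs x hx y hy
        exact Bool.eq_false_iff.2 this) (fun x _ => Nat.zero_testBit _) hk
    rw [h4] at h5
    exact Bool.false_ne_true h5

/-- Neighbourhoods of a graph with 8 vertices. -/
def a8 : Fin 8 → ℕ := ![34, 129, 72, 164, 224, 25, 20, 26]

theorem ex8 : ∃ H : SimpleGraph (Fin 8), Good H 4 ∧ ∃ M : Finset (Fin 8), M.card = 5 ∧
    ∀ i ∈ M, ∀ l ∈ M, ∀ l' ∈ M, H.Adj i l → H.Adj i l' → l = l' := by
  refine ⟨maskGraph 8 a8 (by decide +kernel) (by decide +kernel),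
    good_mask 8 a8 _ _ 4 (by decide +kernel) (by decide +kernel),
    Finset.univ.filter (fun i => i.val < 5), by decide +kernel, ?_⟩
  have h : ∀ i l l' : Fin 8, i.val < 5 → l.val < 5 → l'.val < 5 →
      maskAdj 8 a8 i l = true → maskAdj 8 a8 i l' = true → l = l' := by decide +kernel
  intro i hi l hl l' hl' h1 h2
  exact h i l l' (Finset.mem_filter.1 hi).2 (Finset.mem_filter.1 hl).2 (Finset.mem_filter.1 hl').2
    h1 h2

/-- Neighbourhoods of a graph with 13 vertices. -/
def a13 : Fin 13 → ℕ := ![1666, 2369, 2632, 4484, 4800, 3456, 1046, 57, 554, 277, 4193, 4134, 3096]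

theorem ex13 : ∃ H : SimpleGraph (Fin 13), Good H 5 ∧ ∃ M : Finset (Fin 13), M.card = 6 ∧
    ∀ i ∈ M, ∀ l ∈ M, ∀ l' ∈ M, H.Adj i l → H.Adj i l' → l = l' := by
  refine ⟨maskGraph 13 a13 (by decide +kernel) (by decide +kernel),
    good_mask 13 a13 _ _ 5 (by decide +kernel) (by decide +kernel),
    Finset.univ.filter (fun i => i.val < 6), by decide +kernel, ?_⟩
  have h : ∀ i l l' : Fin 13, i.val < 6 → l.val < 6 → l'.val < 6 →
      maskAdj 13 a13 i l = true → maskAdj 13 a13 i l' = true → l = l' := by decide +kernel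
  intro i hi l hl l' hl' h1 h2
  exact h i l l' (Finset.mem_filter.1 hi).2 (Finset.mem_filter.1 hl).2 (Finset.mem_filter.1 hl').2
    h1 h2

/-- Neighbourhoods of a graph with 17 vertices. -/
def a17 : Fin 17 → ℕ := ![29698, 35329, 99848, 6404, 108576, 22032, 71424, 63488, 57416, 8294, 2149, 1178, 233, 913, 65953, 406, 16468]

theorem ex17 : ∃ H : SimpleGraph (Fin 17), Good H 6 ∧ ∃ M : Finset (Fin 17), M.card = 8 ∧
    ∀ i ∈ M, ∀ l ∈ M, ∀ l' ∈ M, H.Adj i l → H.Adj i l' → l = l' := by
  refine ⟨maskGraph 17 a17 (by decide +kernel) (by decide +kernel),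
    good_mask 17 a17 _ _ 6 (by decide +kernel) (by decide +kernel),
    Finset.univ.filter (fun i => i.val < 8), by decide +kernel, ?_⟩
  have h : ∀ i l l' : Fin 17, i.val < 8 → l.val < 8 → l'.val < 8 →
      maskAdj 17 a17 i l = true → maskAdj 17 a17 i l' = true → l = l' := by decide +kernel
  intro i hi l hl l' hl' h1 h2
  exact h i l l' (Finset.mem_filter.1 hi).2 (Finset.mem_filter.1 hl).2 (Finset.mem_filter.1 hl').2
    h1 h2

/-- Neighbourhoods of a graph with 22 vertices. -/
def a22 : Fin 22 → ℕ := ![2473986, 14849, 1442824, 2173444, 3803168, 291344, 3952640, 467968, 3182080, 655658, 545156, 278810, 99426, 1081514, 134241, 667905, 1577097, 49812, 2277, 99920, 74068, 345]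

theorem ex22 : ∃ H : SimpleGraph (Fin 22), Good H 7 ∧ ∃ M : Finset (Fin 22), M.card = 9 ∧
    ∀ i ∈ M, ∀ l ∈ M, ∀ l' ∈ M, H.Adj i l → H.Adj i l' → l = l' := by
  refine ⟨maskGraph 22 a22 (by decide +kernel) (by decide +kernel),
    good_mask 22 a22 _ _ 7 (by decide +kernel) (by decide +kernel),
    Finset.univ.filter (fun i => i.val < 9), by decide +kernel, ?_⟩
  have h : ∀ i l l' : Fin 22, i.val < 9 → l.val < 9 → l'.val < 9 →
      maskAdj 22 a22 i l = true → maskAdj 22 a22 i l' = true → l = l' := by decide +kernel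
  intro i hi l hl l' hl' h1 h2
  exact h i l l' (Finset.mem_filter.1 hi).2 (Finset.mem_filter.1 hl).2 (Finset.mem_filter.1 hl').2
    h1 h2

end Pool.Agent.H45.RM
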