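import Pool.Agent.H45.RM.Cyc
import Pool.Agent.H45.RM.Fnd
import Pool.Agent.H45.RM.Gr3
import Pool.Agent.H45.RM.Crt
import Pool.Agent.H45.RM.Sml

/-!
# Fin: the theorems
-/

set_option autoImplicit false

namespace Pool.Agent.H45.RM

open Pool.Agent.H41.RamseyStep

/-- `R(3,k+j) ≥ R(3,k) + |H| + |M|` for large `k`, uniformly for `|H|² |M| ≤ k^(1-ε)`. -/
theorem main_unif (ε : ℝ) (hε : 0 < ε) : ∃ k₀ : ℕ, ∀ k : ℕ, k₀ ≤ k → ∀ h j : ℕ, 1 ≤ j →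
    ∀ H : SimpleGraph (Fin h), Good H (j + 1) → ∀ M : Finset (Fin h),
      (∀ i ∈ M, ∀ l ∈ M, ∀ l' ∈ M, H.Adj i l → H.Adj i l' → l = l') →
      (h : ℝ) ^ 2 * M.card ≤ (k : ℝ) ^ (1 - ε) → R k + h + M.card ≤ R (k + j) := by
  obtain ⟨k₀, hk₀⟩ := growth_find ε hε
  refine ⟨max k₀ 1, fun k hk h j hj H hH M hM hhM => ?_⟩
  have hk1 : 1 ≤ k := (le_max_right _ _).trans hk
  have hR : 0 < R k := R_pos hk1
  have h3 : M.card ≤ h := by simpa using Finset.card_le_univ M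
  rcases Nat.eq_zero_or_pos M.card with h0 | h0
  · obtain ⟨G, hG⟩ := exists_good (k := k) (n := R k - 1) (by omega)
    have hM0 : M = ∅ := Finset.card_eq_zero.1 h0
    have h4 := good_double hG hH M (fun _ => ∅) (fun _ => ∅) (by simp) (by simp) (by simp) (by
      intro I T hT hI _ _
      have h5 : T = ∅ := by
        rw [hM0] at hT
        exact Finset.subset_empty.1 hT
      rw [h5, Finset.card_empty, Nat.add_zero]
      exact hG.2 I hI)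
    rw [Fintype.card_fin, Fintype.card_fin] at h4
    omega
  obtain ⟨g1, g2⟩ := hk₀ k ((le_max_left _ _).trans hk) h M.card (by omega) h0 hhM
  obtain ⟨G, hG⟩ := exists_good (k := k) (n := R k - 1) (by omega)
  have hc : Fintype.card (Fin (R k - 1)) = R k - 1 := Fintype.card_fin _
  rcases dich hG M.card with ⟨z, hz, hza⟩ | ⟨O, hO, hC4⟩
  · have h1 := of_C4s hG hH M hM z hz hza
    rw [hc, Fintype.card_fin] at h1
    omega
  · have h1 := find hG h (4 * M.card) O hO hC4 (by rw [hc]; exact g1) (by rw [hc]; exact g2)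
    rw [hc] at h1
    have h2 : R (k + 1) ≤ R (k + j) := R_mono (by omega)
    omega

/-- `R(3,k+j) ≥ R(3,k) + |H| + |M|` for large `k`. -/
theorem main {h j : ℕ} (hj : 1 ≤ j) (H : SimpleGraph (Fin h)) (hH : Good H (j + 1))
    (M : Finset (Fin h)) (hM : ∀ i ∈ M, ∀ l ∈ M, ∀ l' ∈ M, H.Adj i l → H.Adj i l' → l = l') :
    ∃ k₀ : ℕ, ∀ k : ℕ, k₀ ≤ k → R k + h + M.card ≤ R (k + j) := by
  obtain ⟨k₀, hk₀⟩ := main_unif (1 / 2) (by norm_num)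
  obtain ⟨m, hm⟩ := exists_nat_gt ((h : ℝ) ^ 2 * M.card)
  refine ⟨max k₀ (m ^ 2), fun k hk => ?_⟩
  refine hk₀ k ((le_max_left _ _).trans hk) h j hj H hH M hM (hm.le.trans ?_)
  have h1 : m ^ 2 ≤ k := (le_max_right _ _).trans hk
  have h2 : ((m : ℝ)) ^ 2 ≤ k := by exact_mod_cast h1
  have h3 : (1 - 1 / 2 : ℝ) = 1 / 2 := by norm_num
  rw [h3, ← Real.sqrt_eq_rpow]
  exact Real.le_sqrt_of_sq_le h2

theorem R_le (k : ℕ) : R k ≤ k * k + 1 := by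
  apply Nat.sInf_le
  intro G hG
  classical
  have := card_le_sq hG.1 k Finset.univ (fun s _ hs => hG.2 s hs)
  simp at this

/-- `R(3,k+j) ≥ R(3,k) + R(3,j+1) + j` for large `k` and `1 ≤ j ≤ k^(1/6)`. -/
theorem main_crit : ∃ k₀ : ℕ, ∀ k : ℕ, k₀ ≤ k → ∀ j : ℕ, 1 ≤ j → j ^ 6 ≤ k →
    R k + R (j + 1) + j ≤ R (k + j) := by
  obtain ⟨k₀, hk₀⟩ := main_unif (1 / 12) (by norm_num)
  refine ⟨max k₀ (32 ^ 12), fun k hk j hj hjk => ?_⟩
  obtain ⟨H, hH, M', hM1, hM⟩ := crit j hj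
  obtain ⟨M, hMM, hMc⟩ := Finset.exists_subset_card_eq hM1
  have h1 := hk₀ k ((le_max_left _ _).trans hk) _ j hj H hH M
    (fun i hi l hl l' hl' => hM i (hMM hi) l (hMM hl) l' (hMM hl')) ?_
  · have h2 : 0 < R (j + 1) := R_pos (by omega)
    omega
  have hk1 : 32 ^ 12 ≤ k := (le_max_right _ _).trans hk
  have hk0 : (0 : ℝ) < k := by
    have : 0 < k := lt_of_lt_of_le (by norm_num) hk1
    exact_mod_cast this
  have h2 : (((R (j + 1) - 1 : ℕ)) : ℝ) ≤ ((j : ℝ) + 1) ^ 2 := by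
    have h3 := R_le (j + 1)
    have h4 : R (j + 1) - 1 ≤ (j + 1) ^ 2 := by
      rw [sq]
      omega
    exact_mod_cast h4
  have hj1 : (1 : ℝ) ≤ j := by exact_mod_cast hj
  rw [hMc]
  have h5 : (((R (j + 1) - 1 : ℕ)) : ℝ) ^ 2 * ((j + 1 : ℕ) : ℝ) ≤ 32 * (j : ℝ) ^ 5 := by
    calc (((R (j + 1) - 1 : ℕ)) : ℝ) ^ 2 * ((j + 1 : ℕ) : ℝ) ≤
        (((j : ℝ) + 1) ^ 2) ^ 2 * ((j + 1 : ℕ) : ℝ) := by gcongr
      _ = ((j : ℝ) + 1) ^ 5 := by push_cast; ring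
      _ ≤ (2 * (j : ℝ)) ^ 5 := by gcongr; linarith
      _ = 32 * (j : ℝ) ^ 5 := by ring
  refine h5.trans ?_
  have h6 : (j : ℝ) ≤ (k : ℝ) ^ ((1 : ℝ) / 6) := by
    have h7 : ((j : ℝ)) ^ (6 : ℕ) ≤ k := by exact_mod_cast hjk
    have h8 : (j : ℝ) = ((j : ℝ) ^ (6 : ℕ)) ^ ((1 : ℝ) / 6) := by
      rw [← Real.rpow_natCast, ← Real.rpow_mul (by positivity)]
      norm_num
    rw [h8]
    exact Real.rpow_le_rpow (by positivity) h7 (by norm_num)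
  have h9 : (j : ℝ) ^ 5 ≤ (k : ℝ) ^ ((5 : ℝ) / 6) := by
    calc (j : ℝ) ^ 5 ≤ ((k : ℝ) ^ ((1 : ℝ) / 6)) ^ 5 := by gcongr
      _ = (k : ℝ) ^ ((5 : ℝ) / 6) := by
          rw [← Real.rpow_natCast, ← Real.rpow_mul hk0.le]
          norm_num
  have h10 : (32 : ℝ) ≤ (k : ℝ) ^ ((1 : ℝ) / 12) := by
    have h11 : ((32 : ℝ)) ^ (12 : ℕ) ≤ k := by exact_mod_cast hk1
    have h12 : (32 : ℝ) = ((32 : ℝ) ^ (12 : ℕ)) ^ ((1 : ℝ) / 12) := by
      rw [← Real.rpow_natCast, ← Real.rpow_mul (by positivity)]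
      norm_num
    rw [h12]
    exact Real.rpow_le_rpow (by positivity) h11 (by norm_num)
  calc 32 * (j : ℝ) ^ 5 ≤ (k : ℝ) ^ ((1 : ℝ) / 12) * (k : ℝ) ^ ((5 : ℝ) / 6) := by gcongr
    _ = (k : ℝ) ^ (1 - 1 / 12 : ℝ) := by
        rw [← Real.rpow_add hk0]
        norm_num

/-- Three, four, five and six consecutive differences. -/
theorem main_small : ∃ k₀ : ℕ, ∀ k : ℕ, k₀ ≤ k →
    R k + 13 ≤ R (k + 3) ∧ R k + 19 ≤ R (k + 4) ∧ R k + 25 ≤ R (k + 5) ∧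
      R k + 31 ≤ R (k + 6) := by
  obtain ⟨H8, g8, M8, c8, d8⟩ := ex8
  obtain ⟨H13, g13, M13, c13, d13⟩ := ex13
  obtain ⟨H17, g17, M17, c17, d17⟩ := ex17
  obtain ⟨H22, g22, M22, c22, d22⟩ := ex22
  obtain ⟨k22, h22⟩ := main (by norm_num) H22 g22 M22 d22
  obtain ⟨k8, h8⟩ := main (by norm_num) H8 g8 M8 d8
  obtain ⟨k13, h13⟩ := main (by norm_num) H13 g13 M13 d13
  obtain ⟨k17, h17⟩ := main (by norm_num) H17 g17 M17 d17
  refine ⟨max (max k8 (max k13 k17)) k22, fun k hk' => ?_⟩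
  have hk : max k8 (max k13 k17) ≤ k := (le_max_left _ _).trans hk'
  have e4 := h22 k ((le_max_right _ _).trans hk')
  rw [c22] at e4
  have e1 := h8 k ((le_max_left _ _).trans hk)
  have e2 := h13 k (((le_max_left _ _).trans (le_max_right _ _)).trans hk)
  have e3 := h17 k (((le_max_right _ _).trans (le_max_right _ _)).trans hk)
  rw [c8] at e1
  rw [c13] at e2
  rw [c17] at e3
  omega

/-- A triangle-free graph with `α < k` and at least `R(3,k+1) - 2r` vertices has `s` pairwise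
disjoint and non-adjacent 4-cycles, if `r² s ≤ k^(1-ε)` and `k` is large. -/
theorem main_dich (ε : ℝ) (hε : 0 < ε) : ∃ k₀ : ℕ, ∀ k : ℕ, k₀ ≤ k → ∀ r s : ℕ, 1 ≤ r → 1 ≤ s →
    (r : ℝ) ^ 2 * s ≤ (k : ℝ) ^ (1 - ε) → ∀ (n : ℕ) (G : SimpleGraph (Fin n)), Good G k →
      R (k + 1) ≤ n + 2 * r →
        ∃ z : Fin s → Fin 4 → Fin n, (∀ x, C4 G (z x)) ∧ ∀ x y, x ≠ y → Apart G (z x) (z y) := by
  obtain ⟨k₀, hk₀⟩ := growth_near ε hε
  refine ⟨k₀, fun k hk r s hr hs hrs n G hG hn => ?_⟩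
  obtain ⟨g1, g2⟩ := hk₀ k hk r s n hr hs hrs hn
  have hc : Fintype.card (Fin n) = n := Fintype.card_fin _
  rcases dich hG s with h | ⟨O, hO, hC4⟩
  · exact h
  · have h1 := find hG r (4 * s) O hO hC4 (by rw [hc]; exact g1) (by rw [hc]; exact g2)
    rw [hc] at h1
    omega

end Pool.Agent.H45.RM
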