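import Pool.Agent.H45.RM.Nbr

/-!
# Lll: a graph without triangles and without independent `k`-sets from the local lemma

`exists_avoid` (`H58/LLL`) with `E = Sym2 (Fin n)`, `G.Adj a b := a ≠ b ∧ ω s(a, b) = 0`.
Index set `I = Bool × Finset (Fin n)`, `J = {true} × (3-subsets) ∪ {false} × (k-subsets)`,
`S (b, s) = edges s`, `A (true, s) = {ω : ω e = 0 for e ∈ edges s}`,
`A (false, s) = {ω : ω e ≠ 0 for e ∈ edges s}`; probabilities `(1/M)^|edges s|`,
`(1 - 1/M)^|edges s|` (`prob_pi`), `|edges s| = 3` resp. `k.choose 2`.  Weights `x` (true), `y`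
(false).  Neighbours of `(b, s)`: at most `|edges s| n` triangles (`nbr_tri`) and at most
`n.choose k` `k`-sets, so `∏ (1 - x_j) ≥ (1 - x)^(|edges s| n) (1 - y)^(n.choose k)`.
-/

set_option autoImplicit false

namespace Pool.Agent.H45.RM

open Pool.Agent.H41.RamseyStep Pool.Agent.H58.LLL

/-- The allowed values: only `0` for triangles, everything else for `k`-sets. -/
private def Tb {M : ℕ} (z : Fin M) : Bool → Finset (Fin M)
  | true => {z}
  | false => {z}ᶜ

private def Ev (n M : ℕ) (z : Fin M) (i : Bool × Finset (Fin n)) :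
    Finset (Sym2 (Fin n) → Fin M) :=
  Finset.univ.filter fun ω => ∀ e ∈ edges i.2, ω e ∈ Tb z i.1

private theorem ev_dep (n M : ℕ) (z : Fin M) (i : Bool × Finset (Fin n)) :
    DependsOn (Ev n M z i) (edges i.2) := by
  intro ω ω' h
  unfold Ev
  rw [Finset.mem_filter, Finset.mem_filter]
  constructor
  · rintro ⟨_, h1⟩
    exact ⟨Finset.mem_univ _, fun e he => (h e he) ▸ h1 e he⟩
  · rintro ⟨_, h1⟩
    exact ⟨Finset.mem_univ _, fun e he => (h e he).symm ▸ h1 e he⟩

private def Jx (n k : ℕ) : Finset (Bool × Finset (Fin n)) :=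
  (Finset.powersetCard 3 (Finset.univ : Finset (Fin n))).image (Prod.mk true) ∪
    (Finset.powersetCard k (Finset.univ : Finset (Fin n))).image (Prod.mk false)

private theorem mem_Jx_true {n k : ℕ} {s : Finset (Fin n)} (h : s.card = 3) :
    (true, s) ∈ Jx n k := by
  unfold Jx
  refine Finset.mem_union_left _ (Finset.mem_image_of_mem _ ?_)
  rw [Finset.mem_powersetCard]
  exact ⟨Finset.subset_univ _, h⟩

private theorem mem_Jx_false {n k : ℕ} {s : Finset (Fin n)} (h : s.card = k) :
    (false, s) ∈ Jx n k := by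
  unfold Jx
  refine Finset.mem_union_right _ (Finset.mem_image_of_mem _ ?_)
  rw [Finset.mem_powersetCard]
  exact ⟨Finset.subset_univ _, h⟩

private theorem Jx_true {n k : ℕ} {s : Finset (Fin n)} (h : (true, s) ∈ Jx n k) :
    s.card = 3 := by
  unfold Jx at h
  rw [Finset.mem_union, Finset.mem_image, Finset.mem_image] at h
  rcases h with ⟨t, ht, he⟩ | ⟨t, _, he⟩
  · rw [Finset.mem_powersetCard] at ht
    have := (Prod.mk.inj he).2
    rw [← this]
    exact ht.2
  · exact absurd (Prod.mk.inj he).1 (by decide)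

private theorem Jx_false {n k : ℕ} {s : Finset (Fin n)} (h : (false, s) ∈ Jx n k) :
    s.card = k := by
  unfold Jx at h
  rw [Finset.mem_union, Finset.mem_image, Finset.mem_image] at h
  rcases h with ⟨t, _, he⟩ | ⟨t, ht, he⟩
  · exact absurd (Prod.mk.inj he).1 (by decide)
  · rw [Finset.mem_powersetCard] at ht
    have := (Prod.mk.inj he).2
    rw [← this]
    exact ht.2

private theorem prod_nbr {n k : ℕ} (x y : ℝ) (hx0 : 0 ≤ x) (hx1 : x < 1) (hy0 : 0 ≤ y)
    (hy1 : y < 1) (i : Bool × Finset (Fin n)) :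
    (1 - x) ^ ((edges i.2).card * n) * (1 - y) ^ (n.choose k) ≤
      ∏ j ∈ nbr (fun i : Bool × Finset (Fin n) => edges i.2) (Jx n k) i,
        (1 - (if j.1 = true then x else y)) := by
  classical
  set N := nbr (fun i : Bool × Finset (Fin n) => edges i.2) (Jx n k) i with hN
  have hc1 : (N.filter fun j => j.1 = true).card ≤ (edges i.2).card * n := by
    refine le_trans ?_ (nbr_tri i.2)
    have hsub : (N.filter fun j => j.1 = true) ⊆
        ((Finset.powersetCard 3 (Finset.univ : Finset (Fin n))).filter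
          fun t => ¬ Disjoint (edges i.2) (edges t)).image (Prod.mk true) := by
      rintro ⟨b, t⟩ hj
      rw [Finset.mem_filter, hN, nbr, Finset.mem_filter] at hj
      obtain ⟨⟨hJ, _, hd⟩, hb⟩ := hj
      change b = true at hb
      subst hb
      refine Finset.mem_image_of_mem _ ?_
      rw [Finset.mem_filter, Finset.mem_powersetCard]
      exact ⟨⟨Finset.subset_univ _, Jx_true hJ⟩, hd⟩
    exact (Finset.card_le_card hsub).trans Finset.card_image_le
  have hc2 : (N.filter fun j => ¬ j.1 = true).card ≤ n.choose k := by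
    have hsub : (N.filter fun j => ¬ j.1 = true) ⊆
        (Finset.powersetCard k (Finset.univ : Finset (Fin n))).image (Prod.mk false) := by
      rintro ⟨b, t⟩ hj
      rw [Finset.mem_filter, hN, nbr, Finset.mem_filter] at hj
      obtain ⟨⟨hJ, _, _⟩, hb⟩ := hj
      change ¬ b = true at hb
      have hb' : b = false := by
        cases b
        · rfl
        · exact absurd rfl hb
      subst hb'
      refine Finset.mem_image_of_mem _ ?_
      rw [Finset.mem_powersetCard]
      exact ⟨Finset.subset_univ _, Jx_false hJ⟩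
    refine (Finset.card_le_card hsub).trans (Finset.card_image_le.trans ?_)
    rw [Finset.card_powersetCard, Finset.card_univ, Fintype.card_fin]
  rw [← Finset.prod_filter_mul_prod_filter_not N (fun j => j.1 = true)]
  have e1 : ∏ j ∈ N.filter (fun j => j.1 = true), (1 - (if j.1 = true then x else y)) =
      (1 - x) ^ (N.filter fun j => j.1 = true).card := by
    rw [← Finset.prod_const]
    refine Finset.prod_congr rfl fun j hj => ?_
    rw [if_pos (Finset.mem_filter.mp hj).2]
  have e2 : ∏ j ∈ N.filter (fun j => ¬ j.1 = true), (1 - (if j.1 = true then x else y)) =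
      (1 - y) ^ (N.filter fun j => ¬ j.1 = true).card := by
    rw [← Finset.prod_const]
    refine Finset.prod_congr rfl fun j hj => ?_
    rw [if_neg (Finset.mem_filter.mp hj).2]
  rw [e1, e2]
  have hx : 0 ≤ 1 - x := by linarith
  have hy : 0 ≤ 1 - y := by linarith
  refine mul_le_mul (pow_le_pow_of_le_one hx (by linarith) hc1)
    (pow_le_pow_of_le_one hy (by linarith) hc2) (pow_nonneg hy _) (pow_nonneg hx _)

theorem good_of_lll (n k M : ℕ) (hM : 1 < M) (x y : ℝ) (hx0 : 0 ≤ x) (hx1 : x < 1) (hy0 : 0 ≤ y)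
    (hy1 : y < 1)
    (h1 : (1 / (M : ℝ)) ^ 3 ≤ x * ((1 - x) ^ (3 * n) * (1 - y) ^ (n.choose k)))
    (h2 : (1 - 1 / (M : ℝ)) ^ (k.choose 2) ≤
      y * ((1 - x) ^ (k.choose 2 * n) * (1 - y) ^ (n.choose k))) :
    ∃ G : SimpleGraph (Fin n), Good G k := by
  classical
  have hM0 : 0 < M := by omega
  have hMR : (M : ℝ) ≠ 0 := by exact_mod_cast hM0.ne'
  set z : Fin M := ⟨0, hM0⟩ with hz
  obtain ⟨ω, hω⟩ := exists_avoid (Ev n M z) (fun i : Bool × Finset (Fin n) => edges i.2) hM0
    (ev_dep n M z) (fun j => if j.1 = true then x else y)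
    (by
      intro j
      split_ifs
      · exact hx0
      · exact hy0)
    (by
      intro j
      split_ifs
      · exact hx1
      · exact hy1)
    (Jx n k)
    (by
      rintro ⟨b, s⟩ hi
      have hp := prod_nbr (k := k) x y hx0 hx1 hy0 hy1 (b, s)
      have hpr : prob (Ev n M z (b, s)) = (((Tb z b).card : ℝ) / M) ^ (edges s).card :=
        prob_pi hM0 (edges s) (Tb z b)
      rw [hpr, card_edges]
      dsimp only at hp
      rw [card_edges] at hp
      cases b
      · have hs := Jx_false hi
        rw [hs] at hp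
        rw [hs]
        have hT : ((Tb z false).card : ℝ) / M = 1 - 1 / (M : ℝ) := by
          have : (Tb z false).card = M - 1 := by
            unfold Tb
            rw [Finset.card_compl, Fintype.card_fin, Finset.card_singleton]
          rw [this, Nat.cast_sub (by omega), Nat.cast_one, sub_div, div_self hMR]
        rw [hT]
        refine h2.trans ?_
        simp only [Bool.false_eq_true, if_false]
        exact mul_le_mul_of_nonneg_left hp hy0
      · have hs := Jx_true hi
        rw [hs] at hp
        rw [hs]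
        have hT : ((Tb z true).card : ℝ) / M = 1 / (M : ℝ) := by
          have : (Tb z true).card = 1 := by
            unfold Tb
            rw [Finset.card_singleton]
          rw [this, Nat.cast_one]
        rw [hT]
        refine h1.trans ?_
        simp only [if_true]
        exact mul_le_mul_of_nonneg_left hp hx0)
  refine ⟨{ Adj := fun a b => a ≠ b ∧ ω s(a, b) = z
            symm := ⟨fun a b h => ⟨h.1.symm, by rw [Sym2.eq_swap]; exact h.2⟩⟩
            loopless := ⟨fun a h => h.1 rfl⟩ }, ?_, ?_⟩
  · intro a b c hab hbc hac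
    obtain ⟨n1, w1⟩ := hab
    obtain ⟨n2, w2⟩ := hbc
    obtain ⟨n3, w3⟩ := hac
    refine hω (true, {a, b, c}) (mem_Jx_true (Finset.card_eq_three.mpr
      ⟨a, b, c, n1, n3, n2, rfl⟩)) ?_
    unfold Ev
    rw [Finset.mem_filter]
    refine ⟨Finset.mem_univ _, fun e he => ?_⟩
    rw [edges, Finset.mem_image] at he
    obtain ⟨⟨p, q⟩, hpq, rfl⟩ := he
    rw [Finset.mem_offDiag] at hpq
    obtain ⟨hp, hq, hne⟩ := hpq
    change ω s(p, q) ∈ ({z} : Finset (Fin M))
    rw [Finset.mem_singleton]
    simp only [Finset.mem_insert, Finset.mem_singleton] at hp hq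
    rcases hp with rfl | rfl | rfl <;> rcases hq with rfl | rfl | rfl
    · exact absurd rfl hne
    · exact w1
    · exact w3
    · rw [Sym2.eq_swap]; exact w1
    · exact absurd rfl hne
    · exact w2
    · rw [Sym2.eq_swap]; exact w3
    · rw [Sym2.eq_swap]; exact w2
    · exact absurd rfl hne
  · intro s hs
    by_contra hcon
    push Not at hcon
    obtain ⟨t, hts, htc⟩ := Finset.exists_subset_card_eq hcon
    refine hω (false, t) (mem_Jx_false htc) ?_
    unfold Ev
    rw [Finset.mem_filter]
    refine ⟨Finset.mem_univ _, fun e he => ?_⟩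
    rw [edges, Finset.mem_image] at he
    obtain ⟨⟨p, q⟩, hpq, rfl⟩ := he
    rw [Finset.mem_offDiag] at hpq
    obtain ⟨hp, hq, hne⟩ := hpq
    change ω s(p, q) ∈ ({z} : Finset (Fin M))ᶜ
    rw [Finset.mem_compl, Finset.mem_singleton]
    intro hz'
    exact hs p (hts hp) q (hts hq) ⟨hne, hz'⟩

end Pool.Agent.H45.RM
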