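import Pool.Agent.H45.RM.Defs
import Pool.Agent.H58.LLL

/-!
# Nbr: probabilities and neighbours for the local lemma

`edges s = s.offDiag.image (fun p => s(p.1, p.2))`, `|edges s| = |s|.choose 2`
(`Sym2.card_image_offDiag`).
`prob_pi`: the event is `Fintype.piFinset (fun e => if e ∈ F then T else univ)`; `prob` is
`card / card` (`H58/LLL`).
`nbr_tri`: a triangle `t` with an edge `s(a, b) ∈ edges s` is `{a, b, z}`: at most `n` for each edge.
-/

set_option autoImplicit false

namespace Pool.Agent.H45.RM

open Pool.Agent.H41.RamseyStep Pool.Agent.H58.LLL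

/-- The edges inside `s`. -/
def edges {n : ℕ} (s : Finset (Fin n)) : Finset (Sym2 (Fin n)) :=
  s.offDiag.image fun p => s(p.1, p.2)

theorem card_edges {n : ℕ} (s : Finset (Fin n)) : (edges s).card = s.card.choose 2 :=
  Sym2.card_image_offDiag s

theorem prob_pi {E : Type*} [Fintype E] [DecidableEq E] {M : ℕ} (hM : 0 < M) (F : Finset E)
    (T : Finset (Fin M)) :
    prob (Finset.univ.filter fun ω : E → Fin M => ∀ e ∈ F, ω e ∈ T) = ((T.card : ℝ) / M) ^ F.card := by
  classical
  have hM' : (M : ℝ) ≠ 0 := by exact_mod_cast hM.ne'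
  have h1 : (Finset.univ.filter fun ω : E → Fin M => ∀ e ∈ F, ω e ∈ T) =
      Fintype.piFinset (fun e => if e ∈ F then T else Finset.univ) := by
    ext ω
    rw [Finset.mem_filter, Fintype.mem_piFinset]
    constructor
    · intro h e
      by_cases he : e ∈ F
      · rw [if_pos he]
        exact h.2 e he
      · rw [if_neg he]
        exact Finset.mem_univ _
    · intro h
      refine ⟨Finset.mem_univ _, fun e he => ?_⟩
      have := h e
      rwa [if_pos he] at this
  have h2 : (Fintype.card (E → Fin M) : ℝ) = (M : ℝ) ^ (Fintype.card E) := by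
    rw [Fintype.card_fun, Fintype.card_fin]
    push_cast
    rfl
  have h3 : ∀ e : E, (((if e ∈ F then T else Finset.univ : Finset (Fin M)).card : ℕ) : ℝ) =
      (if e ∈ F then (T.card : ℝ) / M else 1) * M := by
    intro e
    by_cases he : e ∈ F
    · rw [if_pos he, if_pos he, div_mul_cancel₀ _ hM']
    · rw [if_neg he, if_neg he, Finset.card_univ, Fintype.card_fin, one_mul]
  unfold prob
  rw [h1, Fintype.card_piFinset, Nat.cast_prod, h2, Finset.prod_congr rfl (fun e _ => h3 e),
    Finset.prod_mul_distrib, Finset.prod_const, Finset.card_univ,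
    mul_div_cancel_right₀ _ (pow_ne_zero _ hM')]
  rw [Finset.prod_ite_mem, Finset.univ_inter, Finset.prod_const]

theorem nbr_tri {n : ℕ} (s : Finset (Fin n)) :
    ((Finset.powersetCard 3 (Finset.univ : Finset (Fin n))).filter
      fun t => ¬ Disjoint (edges s) (edges t)).card ≤ (edges s).card * n := by
  classical
  have hsub : ((Finset.powersetCard 3 (Finset.univ : Finset (Fin n))).filter
      fun t => ¬ Disjoint (edges s) (edges t)) ⊆
      (edges s).biUnion (fun e => (Finset.univ : Finset (Fin n)).image
        (fun z => insert z e.toFinset)) := by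
    intro t ht
    rw [Finset.mem_filter, Finset.mem_powersetCard] at ht
    obtain ⟨⟨_, hc⟩, hd⟩ := ht
    rw [Finset.not_disjoint_iff] at hd
    obtain ⟨e, hes, het⟩ := hd
    rw [edges, Finset.mem_image] at het
    obtain ⟨⟨a, b⟩, hab, rfl⟩ := het
    rw [Finset.mem_offDiag] at hab
    obtain ⟨ha, hb, hne⟩ := hab
    rw [Finset.mem_biUnion]
    refine ⟨_, hes, ?_⟩
    rw [Finset.mem_image]
    have hpair : (s(a, b)).toFinset = {a, b} := Sym2.toFinset_mk_eq
    have hsub2 : ({a, b} : Finset (Fin n)) ⊆ t := by
      intro x hx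
      rw [Finset.mem_insert, Finset.mem_singleton] at hx
      rcases hx with rfl | rfl
      · exact ha
      · exact hb
    have hcard : ({a, b} : Finset (Fin n)).card = 2 := Finset.card_pair hne
    have hz : ∃ z ∈ t, z ∉ ({a, b} : Finset (Fin n)) := by
      by_contra hcon
      push Not at hcon
      have := Finset.card_le_card (show t ⊆ ({a, b} : Finset (Fin n)) from hcon)
      omega
    obtain ⟨z, hzt, hzn⟩ := hz
    refine ⟨z, Finset.mem_univ _, ?_⟩
    change insert z (s(a, b)).toFinset = t
    rw [hpair]
    refine Finset.eq_of_subset_of_card_le (Finset.insert_subset hzt hsub2) ?_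
    rw [Finset.card_insert_of_notMem hzn, hcard, hc]
  refine (Finset.card_le_card hsub).trans (Finset.card_biUnion_le.trans ?_)
  rw [← smul_eq_mul, ← Finset.sum_const]
  refine Finset.sum_le_sum (fun e _ => ?_)
  refine Finset.card_image_le.trans ?_
  rw [Finset.card_univ, Fintype.card_fin]

end Pool.Agent.H45.RM
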