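import Pool.Agent.H45.RM.Att

/-!
# Sta: the star and far gadgets

`good_att` with `X = Bool × Fin r`, `(s, i) ~ (s', i')` iff `s ≠ s'` (complete bipartite),
`A (s, i) = {x ~ v s i, x ∉ D} ∪ {v s l : l ≠ i}`.
`S` independent in `X` lies on one side `s`.  `S = ∅` or `|S| = 1`: `|I| + |S| ≤ |I| + 1 < k + 1`.
If `|S| ≥ 2`, then `v s i ∉ I` for `(s, i) ∈ S`; `I' = (I - D) + {v s i : (s, i) ∈ S}` is
independent and `|I'| ≥ |I| - 1 + |S|` (`D` has at most one element), so `|I| + |S| - 1 < k`.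
-/

set_option autoImplicit false

namespace Pool.Agent.H45.RM

open Pool.Agent.H41.RamseyStep

/-- the complete bipartite graph on `Bool × Fin r` -/
private def Sta_K (r : ℕ) : SimpleGraph (Bool × Fin r) where
  Adj x y := x.1 ≠ y.1
  symm := ⟨fun _ _ h => Ne.symm h⟩
  loopless := ⟨fun _ h => h rfl⟩

theorem of_star {V : Type*} [Fintype V] {G : SimpleGraph V} {k : ℕ} (hG : Good G k) (r : ℕ)
    (v : Bool → Fin r → V) (D : Set V) (hD : ∀ x ∈ D, ∀ y ∈ D, x = y)
    (hinj : ∀ s i s' i', v s i = v s' i' → s = s' ∧ i = i')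
    (hadj : ∀ s i s' i', ¬ G.Adj (v s i) (v s' i'))
    (hcom : ∀ s i s' i' x, (s, i) ≠ (s', i') → G.Adj (v s i) x → G.Adj (v s' i') x → x ∈ D) :
    Fintype.card V + 2 * r < R (k + 1) := by
  classical
  let A : Bool × Fin r → Set V := fun p =>
    {x | (G.Adj (v p.1 p.2) x ∧ x ∉ D) ∨ ∃ l, l ≠ p.2 ∧ x = v p.1 l}
  have hgood : Good (att G (Sta_K r) A) (k + 1) := by
    refine good_att hG.1 ?_ ?_ ?_ ?_
    · rintro ⟨a, _⟩ ⟨b, _⟩ ⟨c, _⟩ h1 h2 h3
      have h1' : a ≠ b := h1
      have h2' : b ≠ c := h2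
      have h3' : a ≠ c := h3
      revert h1' h2' h3'
      cases a <;> cases b <;> cases c <;> simp
    · rintro ⟨s, i⟩ u hu w hw huw
      rcases hu with ⟨hu1, hu2⟩ | ⟨l, hl, rfl⟩
      · rcases hw with ⟨hw1, hw2⟩ | ⟨l', hl', rfl⟩
        · exact hG.1 _ _ _ hu1 huw hw1
        · exact hu2 (hcom s i s l' u (fun h => hl' (Prod.ext_iff.1 h).2.symm) hu1 huw.symm)
      · rcases hw with ⟨hw1, hw2⟩ | ⟨l', hl', rfl⟩
        · exact hw2 (hcom s i s l w (fun h => hl (Prod.ext_iff.1 h).2.symm) hw1 huw)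
        · exact hadj _ _ _ _ huw
    · rintro ⟨s, i⟩ ⟨s', i'⟩ hss u hu hu'
      have hne : s ≠ s' := hss
      rcases hu with ⟨hu1, hu2⟩ | ⟨l, hl, hul⟩
      · rcases hu' with ⟨hw1, hw2⟩ | ⟨l', hl', hul'⟩
        · exact hu2 (hcom s i s' i' u (fun h => hne (Prod.ext_iff.1 h).1) hu1 hw1)
        · rw [hul'] at hu1
          exact hadj _ _ _ _ hu1
      · rcases hu' with ⟨hw1, hw2⟩ | ⟨l', hl', hul'⟩
        · rw [hul] at hw1
          exact hadj _ _ _ _ hw1
        · exact hne (hinj _ _ _ _ (hul.symm.trans hul')).1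
    · intro I S hI hS hIS
      have hIk : I.card < k := hG.2 I hI
      by_cases hS1 : S.card ≤ 1
      · omega
      push Not at hS1
      -- the vertices of `S` are not in `I`
      have hside : ∀ p ∈ S, ∀ q ∈ S, p.1 = q.1 := by
        intro p hp q hq
        by_contra hne
        exact hS p hp q hq hne
      have hnot : ∀ p ∈ S, v p.1 p.2 ∉ I := by
        intro p hp hpI
        obtain ⟨q, hq, hqp⟩ := Finset.exists_mem_ne hS1 p
        refine hIS q hq _ hpI (Or.inr ⟨p.2, ?_, ?_⟩)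
        · intro h
          exact hqp (Prod.ext (hside q hq p hp) h.symm)
        · rw [hside q hq p hp]
      have hcard1 : (S.image fun p => v p.1 p.2).card = S.card := by
        refine Finset.card_image_of_injective _ ?_
        rintro ⟨a, b⟩ ⟨c, d⟩ h
        obtain ⟨h1, h2⟩ := hinj _ _ _ _ h
        exact Prod.ext h1 h2
      have hdisj : Disjoint (I.filter fun x => x ∉ D) (S.image fun p => v p.1 p.2) := by
        rw [Finset.disjoint_left]
        intro x hx hx'
        obtain ⟨p, hp, rfl⟩ := Finset.mem_image.1 hx'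
        exact hnot p hp (Finset.mem_filter.1 hx).1
      have hDc : (I.filter fun x => x ∈ D).card ≤ 1 := by
        rw [Finset.card_le_one]
        intro a ha b hb
        exact hD a (Finset.mem_filter.1 ha).2 b (Finset.mem_filter.1 hb).2
      have hsum : (I.filter fun x => x ∈ D).card + (I.filter fun x => x ∉ D).card = I.card :=
        Finset.card_filter_add_card_filter_not _
      have hlt : ((I.filter fun x => x ∉ D) ∪ (S.image fun p => v p.1 p.2)).card < k := by
        refine hG.2 _ ?_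
        intro x hx y hy hxy
        rcases Finset.mem_union.1 hx with hx | hx
        · obtain ⟨hx1, hx2⟩ := Finset.mem_filter.1 hx
          rcases Finset.mem_union.1 hy with hy | hy
          · exact hI x hx1 y (Finset.mem_filter.1 hy).1 hxy
          · obtain ⟨p, hp, rfl⟩ := Finset.mem_image.1 hy
            exact hIS p hp x hx1 (Or.inl ⟨hxy.symm, hx2⟩)
        · obtain ⟨p, hp, rfl⟩ := Finset.mem_image.1 hx
          rcases Finset.mem_union.1 hy with hy | hy
          · obtain ⟨hy1, hy2⟩ := Finset.mem_filter.1 hy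
            exact hIS p hp y hy1 (Or.inl ⟨hxy, hy2⟩)
          · obtain ⟨q, hq, rfl⟩ := Finset.mem_image.1 hy
            exact hadj _ _ _ _ hxy
      rw [Finset.card_union_of_disjoint hdisj, hcard1] at hlt
      omega
  have h := hgood.card_lt
  rw [Fintype.card_sum, Fintype.card_prod, Fintype.card_bool, Fintype.card_fin] at h
  exact h

/-- The same for a set of `2 r` vertices. -/
theorem of_star' {V : Type*} [Fintype V] {G : SimpleGraph V} {k : ℕ} (hG : Good G k) (r : ℕ)
    (S : Finset V) (hS : S.card = 2 * r) (D : Set V) (hD : ∀ x ∈ D, ∀ y ∈ D, x = y)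
    (hadj : ∀ x ∈ S, ∀ y ∈ S, ¬ G.Adj x y)
    (hcom : ∀ x ∈ S, ∀ y ∈ S, ∀ w, x ≠ y → G.Adj x w → G.Adj y w → w ∈ D) :
    Fintype.card V + 2 * r < R (k + 1) := by
  classical
  have hc : Fintype.card (Bool × Fin r) = Fintype.card S := by
    rw [Fintype.card_prod, Fintype.card_bool, Fintype.card_fin, Fintype.card_coe, hS]
  have e : Bool × Fin r ≃ S := Fintype.equivOfCardEq hc
  refine of_star hG r (fun s i => (e (s, i) : V)) D hD ?_ ?_ ?_
  · intro s i s' i' h
    have h1 := e.injective (Subtype.ext h)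
    exact ⟨(Prod.ext_iff.1 h1).1, (Prod.ext_iff.1 h1).2⟩
  · intro s i s' i'
    exact hadj _ (e (s, i)).2 _ (e (s', i')).2
  · intro s i s' i' x hne h1 h2
    refine hcom _ (e (s, i)).2 _ (e (s', i')).2 x ?_ h1 h2
    intro h
    exact hne (e.injective (Subtype.ext h))

end Pool.Agent.H45.RM
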